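import Pool.Agent.Lib.MP_799861_al.Hom

set_option autoImplicit false

open CategoryTheory

namespace Pool.Agent.Lib.MP_799861_al

/-- The elementwise facts about the ring `A = k[x,y,u,v,z]/(xz, uz, xy - uv)` used in the
homological part. -/
structure Facts {A : Type} [CommRing A] (x y u v z : A) : Prop where
  xz : x * z = 0
  uz : u * z = 0
  q : x * y = u * v
  P0 : ∀ a : A, z * a = 0 → ∃ b c, a = x * b + u * c
  -- modulo z
  L11 : ∀ a b : A, x * a = z * b → ∃ c, a = z * c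
  L12 : ∀ a b c : A, (v + u ^ 2) * a = z * b + x * c → ∃ b' c', a = z * b' + x * c'
  L13 : ∀ a b : A, y * a = z * b → ∃ c, a = z * c
  L14 : ∀ a b c : A, (u + v ^ 2) * a = z * b + y * c → ∃ b' c', a = z * b' + y * c'
  L15 : ∀ a b : A, u * a = z * b → ∃ c, a = z * c
  L16 : ∀ a b c : A, v * a = z * b + u * c → ∃ b' c', a = z * b' + u * c'
  M : ∀ a b c d e b' c' d' e' : A, a = x * b + u * c + v * d + z * e →
    a = y * b' + u * c' + v * d' + z * e' → ∃ c d e, a = u * c + v * d + z * e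
  S1 : ∀ w3 w1 w2 a b c : A, w3 * y ^ 2 + w1 * (u * y) + w2 * u ^ 2 =
    z * a + x * b + (v + u ^ 2) * c → ∃ b c d e, w3 = x * b + u * c + v * d + z * e
  S2 : ∀ w1 w2 a b c : A, w1 * (u * y) + w2 * u ^ 2 =
    z * a + x * b + (v + u ^ 2) * c → ∃ b c d e, w1 = x * b + u * c + v * d + z * e
  S3 : ∀ w2 a b c : A, w2 * u ^ 2 =
    z * a + x * b + (v + u ^ 2) * c → ∃ b c d e, w2 = x * b + u * c + v * d + z * e
  T1 : ∀ w3 w1 w2 a b c : A, w3 * x ^ 2 + w1 * (x * v) + w2 * v ^ 2 =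
    z * a + y * b + (u + v ^ 2) * c → ∃ b c d e, w3 = y * b + u * c + v * d + z * e
  T2 : ∀ w1 w2 a b c : A, w1 * (x * v) + w2 * v ^ 2 =
    z * a + y * b + (u + v ^ 2) * c → ∃ b c d e, w1 = y * b + u * c + v * d + z * e
  T3 : ∀ w2 a b c : A, w2 * v ^ 2 =
    z * a + y * b + (u + v ^ 2) * c → ∃ b c d e, w2 = y * b + u * c + v * d + z * e
  -- modulo (x, u)
  L21 : ∀ a b c : A, z * a = x * b + u * c → ∃ b' c', a = x * b' + u * c'
  L21y : ∀ a b c : A, y * a = x * b + u * c → ∃ b' c', a = x * b' + u * c'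
  L22 : ∀ a b c d : A, v * a = x * b + u * c + z * y * d → ∃ b' c' d', a = x * b' + u * c' +
    z * y * d'
  L23 : ∀ a b c : A, (y - z ^ 2) * a = x * b + u * c → ∃ b' c', a = x * b' + u * c'
  L24 : ∀ a b c d : A, v * a = x * b + u * c + (y - z ^ 2) * d → ∃ b' c' d', a = x * b' + u * c' +
    (y - z ^ 2) * d'
  L25 : ∀ a b c d : A, (v - z) * a = x * b + u * c + (y - z ^ 2) * d →
    ∃ b' c' d', a = x * b' + u * c' + (y - z ^ 2) * d'
  L26 : ∀ a b c d : A, v * a = x * b + u * c + z * d → ∃ b' c' d', a = x * b' + u * c' + z * d'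
  L27a : ∀ w3 a b c d : A, w3 * y ^ 2 = x * a + u * b + v * c + z * y * d →
    ∃ a b c d, w3 = x * a + u * b + v * c + z * d
  L27b : ∀ w1 w2 a b c d : A, w1 * z ^ 2 - w2 * v ^ 2 =
      x * a + u * b + (y - z ^ 2) * c + (v ^ 2 - z * v) * d →
    ∃ e f a b c a' b' c', w1 = e * v + x * a + u * b + (y - z ^ 2) * c ∧
      w2 = e * z + f * (v - z) + x * a' + u * b' + (y - z ^ 2) * c'

section maps

variable {A : Type} [CommRing A] (x y u v z : A)

/-- multiplication by the matrix `α` on row vectors `(w₃, w₁, w₂)`. -/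
def alpha : (A × A × A) →ₗ[A] (A × A × A) where
  toFun w := (w.1 * u + w.2.2 * z, -(w.1 * (y - z ^ 2)) + w.2.1 * u,
    w.1 * x ^ 2 - w.2.1 * (y - z ^ 2) + w.2.2 * u)
  map_add' a b := by
    ext <;> simp only [Prod.fst_add, Prod.snd_add] <;> ring
  map_smul' r a := by
    ext <;> simp only [Prod.smul_fst, Prod.smul_snd, smul_eq_mul, RingHom.id_apply] <;> ring

/-- multiplication by the matrix `β`. -/
def beta : (A × A × A) →ₗ[A] (A × A × A) where
  toFun w := (w.1 * v - w.2.1 * (z * y), -(w.1 * x) + w.2.1 * v,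
    w.1 * (y ^ 2 - z ^ 4) - w.2.1 * (x - z) + w.2.2 * (v - z))
  map_add' a b := by
    ext <;> simp only [Prod.fst_add, Prod.snd_add] <;> ring
  map_smul' r a := by
    ext <;> simp only [Prod.smul_fst, Prod.smul_snd, smul_eq_mul, RingHom.id_apply] <;> ring

/-- multiplication by the matrix `β'`, with `α β = β' α`. -/
def beta' : (A × A × A) →ₗ[A] (A × A × A) where
  toFun w := (w.1 * v, -(w.1 * (x - z)) + w.2.1 * (v - z) - w.2.2 * (z * (y + z ^ 2)),
    w.1 * (y * (y - z ^ 2)) - w.2.1 * x + w.2.2 * v)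
  map_add' a b := by
    ext <;> simp only [Prod.fst_add, Prod.snd_add] <;> ring
  map_smul' r a := by
    ext <;> simp only [Prod.smul_fst, Prod.smul_snd, smul_eq_mul, RingHom.id_apply] <;> ring

/-- first component of the map to `C₁ × C₂`. -/
def m1 : (A × A × A) →ₗ[A] A where
  toFun w := w.1 * y ^ 2 + w.2.1 * (u * y) + w.2.2 * u ^ 2
  map_add' a b := by
    simp only [Prod.fst_add, Prod.snd_add]; ring
  map_smul' r a := by
    simp only [Prod.smul_fst, Prod.smul_snd, smul_eq_mul, RingHom.id_apply]; ring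

/-- second component of the map to `C₁ × C₂`. -/
def m2 : (A × A × A) →ₗ[A] A where
  toFun w := -(w.1 * x ^ 2 + w.2.1 * (x * v - z ^ 2) + w.2.2 * v ^ 2)
  map_add' a b := by
    simp only [Prod.fst_add, Prod.snd_add]; ring
  map_smul' r a := by
    simp only [Prod.smul_fst, Prod.smul_snd, smul_eq_mul, RingHom.id_apply]; ring

variable {x y u v z}

theorem alpha_apply (a b c : A) : alpha x y u z (a, b, c) =
    (a * u + c * z, -(a * (y - z ^ 2)) + b * u, a * x ^ 2 - b * (y - z ^ 2) + c * u) := rfl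

theorem beta_apply (a b c : A) : beta x y v z (a, b, c) =
    (a * v - b * (z * y), -(a * x) + b * v, a * (y ^ 2 - z ^ 4) - b * (x - z) + c * (v - z)) := rfl

theorem beta'_apply (a b c : A) : beta' x y v z (a, b, c) =
    (a * v, -(a * (x - z)) + b * (v - z) - c * (z * (y + z ^ 2)),
      a * (y * (y - z ^ 2)) - b * x + c * v) := rfl

theorem m1_apply (a b c : A) : m1 y u (a, b, c) = a * y ^ 2 + b * (u * y) + c * u ^ 2 := rfl

theorem m2_apply (a b c : A) : m2 x v z (a, b, c) =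
    -(a * x ^ 2 + b * (x * v - z ^ 2) + c * v ^ 2) := rfl

theorem beta_alpha (F : Facts x y u v z) (w : A × A × A) :
    beta x y v z (alpha x y u z w) = alpha x y u z (beta' x y v z w) := by
  obtain ⟨a, b, c⟩ := w
  rw [alpha_apply, beta_apply, beta'_apply, alpha_apply]
  have hxz := F.xz
  have huz := F.uz
  refine Prod.ext ?_ (Prod.ext ?_ ?_)
  · show _ = _
    simp only
    linear_combination (-(y * b)) * huz + b * hxz
  · show _ = _
    simp only
    linear_combination (-a + c * y + c * z ^ 2 + b) * huz - c * hxz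
  · show _ = _
    simp only
    linear_combination (a * z * y - a * z ^ 3 - c + b) * huz - a * x * hxz

/-! ### The complete intersections `C₁`, `C₂` -/

variable (x y u v z)

/-- multiplication by a scalar as a linear map -/
abbrev sc (s : A) (X : Type) [AddCommGroup X] [Module A X] : X →ₗ[A] X := LinearMap.lsmul A X s

/-- `A / (c₁)`, `c₁ = x - z y`. -/
abbrev Q1 : Type := A ⧸ LinearMap.range (sc (x - z * y) A)
/-- `C₁ = A / (c₁, d₁)`, `d₁ = v + u²`. -/
abbrev C1 : Type := Q1 x y z ⧸ LinearMap.range (sc (v + u ^ 2) (Q1 x y z))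
/-- `A / (c₂)`, `c₂ = y - z²`. -/
abbrev Q2 : Type := A ⧸ LinearMap.range (sc (y - z ^ 2) A)
/-- `C₂ = A / (c₂, d₂)`, `d₂ = u + v² - z v`. -/
abbrev C2 : Type := Q2 y z ⧸ LinearMap.range (sc (u + v ^ 2 - z * v) (Q2 y z))

/-- the projection `A → C₁` -/
abbrev pi1 : A →ₗ[A] C1 x y u v z :=
  (LinearMap.range (sc (v + u ^ 2) (Q1 x y z))).mkQ ∘ₗ (LinearMap.range (sc (x - z * y) A)).mkQ
/-- the projection `A → C₂` -/
abbrev pi2 : A →ₗ[A] C2 y u v z :=
  (LinearMap.range (sc (u + v ^ 2 - z * v) (Q2 y z))).mkQ ∘ₗ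
    (LinearMap.range (sc (y - z ^ 2) A)).mkQ

variable {x y u v z}

theorem two_step_eq_zero (c d a : A) :
    (LinearMap.range (sc d (A ⧸ LinearMap.range (sc c A)))).mkQ
      ((LinearMap.range (sc c A)).mkQ a) = 0 ↔ ∃ s t, a = c * s + d * t := by
  rw [Submodule.mkQ_apply, Submodule.Quotient.mk_eq_zero]
  constructor
  · rintro ⟨q, hq⟩
    obtain ⟨t, rfl⟩ := Submodule.mkQ_surjective _ q
    rw [LinearMap.lsmul_apply, ← map_smul, ← sub_eq_zero, ← map_sub, Submodule.mkQ_apply,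
      Submodule.Quotient.mk_eq_zero] at hq
    obtain ⟨s, hs⟩ := hq
    rw [LinearMap.lsmul_apply, smul_eq_mul, smul_eq_mul] at hs
    exact ⟨-s, t, by linear_combination hs⟩
  · rintro ⟨s, t, rfl⟩
    refine ⟨(LinearMap.range (sc c A)).mkQ t, ?_⟩
    rw [LinearMap.lsmul_apply, ← map_smul, ← sub_eq_zero, ← map_sub, Submodule.mkQ_apply,
      Submodule.Quotient.mk_eq_zero]
    refine ⟨-s, ?_⟩
    rw [LinearMap.lsmul_apply, smul_eq_mul, smul_eq_mul]
    ring

theorem one_step_eq (c a b : A) :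
    (LinearMap.range (sc c A)).mkQ a = (LinearMap.range (sc c A)).mkQ b ↔
      ∃ s, a = b + c * s := by
  rw [← sub_eq_zero, ← map_sub, Submodule.mkQ_apply, Submodule.Quotient.mk_eq_zero]
  constructor
  · rintro ⟨s, hs⟩
    rw [LinearMap.lsmul_apply, smul_eq_mul] at hs
    exact ⟨s, by linear_combination -hs⟩
  · rintro ⟨s, hs⟩
    refine ⟨s, ?_⟩
    rw [LinearMap.lsmul_apply, smul_eq_mul]
    linear_combination -hs

theorem good_A (F : Facts x y u v z) : Good x u z A := by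
  intro a ha
  obtain ⟨b, c, h⟩ := F.P0 a ha
  exact ⟨b, c, h⟩

theorem lemC1a (F : Facts x y u v z) (a b : A) (h : (x - z * y) * a = z * b) :
    ∃ c, a = z * c :=
  F.L11 a (b + y * a) (by linear_combination h)

theorem lemC2a (F : Facts x y u v z) (a b : A) (h : (y - z ^ 2) * a = z * b) :
    ∃ c, a = z * c :=
  F.L13 a (b + z * a) (by linear_combination h)

theorem inj_c1 (F : Facts x y u v z) : Function.Injective (sc (x - z * y) A) := by
  refine lemL_inj F.xz F.uz _ (good_A F) ?_ ?_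
  · intro a b h
    exact lemC1a F a b h
  · intro a b c h
    rw [LinearMap.lsmul_apply] at h
    simp only [smul_eq_mul] at h ⊢
    obtain ⟨b', c', h'⟩ := F.L21 (y * a) (a - b) (-c) (by linear_combination -h)
    exact F.L21y a b' c' h'

theorem good_Q1 (F : Facts x y u v z) : Good x u z (Q1 x y z) :=
  lemL_good _ (good_A F) (fun a b h => lemC1a F a b h)

theorem inj_d1 (F : Facts x y u v z) : Function.Injective (sc (v + u ^ 2) (Q1 x y z)) := by
  refine lemL_inj F.xz F.uz _ (good_Q1 F) ?_ ?_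
  · intro a b h
    obtain ⟨a, rfl⟩ := Submodule.mkQ_surjective _ a
    obtain ⟨b, rfl⟩ := Submodule.mkQ_surjective _ b
    rw [LinearMap.lsmul_apply, ← map_smul, ← map_smul, one_step_eq] at h
    simp only [smul_eq_mul] at h
    obtain ⟨s, hs⟩ := h
    obtain ⟨b', c', hbc⟩ := F.L12 a (b - y * s) s (by linear_combination hs)
    refine ⟨(LinearMap.range (sc (x - z * y) A)).mkQ (b' + y * c'), ?_⟩
    rw [← map_smul, one_step_eq]
    refine ⟨c', ?_⟩
    simp only [smul_eq_mul]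
    linear_combination hbc
  · intro a b c h
    obtain ⟨a, rfl⟩ := Submodule.mkQ_surjective _ a
    obtain ⟨b, rfl⟩ := Submodule.mkQ_surjective _ b
    obtain ⟨c, rfl⟩ := Submodule.mkQ_surjective _ c
    rw [LinearMap.lsmul_apply, ← map_smul, ← map_smul, ← map_smul, ← map_add, one_step_eq] at h
    simp only [smul_eq_mul] at h
    obtain ⟨s, hs⟩ := h
    obtain ⟨b', c', d', h'⟩ := F.L22 a (b + s) (c - u * a) (-s) (by linear_combination hs)
    refine ⟨(LinearMap.range (sc (x - z * y) A)).mkQ (b' + d'),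
      (LinearMap.range (sc (x - z * y) A)).mkQ c', ?_⟩
    rw [← map_smul, ← map_smul, ← map_add, one_step_eq]
    refine ⟨-d', ?_⟩
    simp only [smul_eq_mul]
    linear_combination h'

theorem good_C1 (F : Facts x y u v z) : Good x u z (C1 x y u v z) := by
  refine lemL_good _ (good_Q1 F) ?_
  intro a b h
  obtain ⟨a, rfl⟩ := Submodule.mkQ_surjective _ a
  obtain ⟨b, rfl⟩ := Submodule.mkQ_surjective _ b
  rw [LinearMap.lsmul_apply, ← map_smul, ← map_smul, one_step_eq] at h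
  simp only [smul_eq_mul] at h
  obtain ⟨s, hs⟩ := h
  obtain ⟨b', c', hbc⟩ := F.L12 a (b - y * s) s (by linear_combination hs)
  refine ⟨(LinearMap.range (sc (x - z * y) A)).mkQ (b' + y * c'), ?_⟩
  rw [← map_smul, one_step_eq]
  refine ⟨c', ?_⟩
  simp only [smul_eq_mul]
  linear_combination hbc

theorem inj_c2 (F : Facts x y u v z) : Function.Injective (sc (y - z ^ 2) A) := by
  refine lemL_inj F.xz F.uz _ (good_A F) ?_ ?_
  · intro a b h
    exact lemC2a F a b h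
  · intro a b c h
    exact F.L23 a b c h

theorem good_Q2 (F : Facts x y u v z) : Good x u z (Q2 y z) :=
  lemL_good _ (good_A F) (fun a b h => lemC2a F a b h)

theorem lemC2b (F : Facts x y u v z) (a b : Q2 y z)
    (h : sc (u + v ^ 2 - z * v) (Q2 y z) a = z • b) : ∃ c, a = z • c := by
  obtain ⟨a, rfl⟩ := Submodule.mkQ_surjective _ a
  obtain ⟨b, rfl⟩ := Submodule.mkQ_surjective _ b
  rw [LinearMap.lsmul_apply, ← map_smul, ← map_smul, one_step_eq] at h
  simp only [smul_eq_mul] at h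
  obtain ⟨s, hs⟩ := h
  obtain ⟨b', c', hbc⟩ := F.L14 a (b + v * a - z * s) s (by linear_combination hs)
  refine ⟨(LinearMap.range (sc (y - z ^ 2) A)).mkQ (b' + z * c'), ?_⟩
  rw [← map_smul, one_step_eq]
  refine ⟨c', ?_⟩
  simp only [smul_eq_mul]
  linear_combination hbc

theorem inj_d2 (F : Facts x y u v z) : Function.Injective (sc (u + v ^ 2 - z * v) (Q2 y z)) := by
  refine lemL_inj F.xz F.uz _ (good_Q2 F) (lemC2b F) ?_
  intro a b c h
  obtain ⟨a, rfl⟩ := Submodule.mkQ_surjective _ a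
  obtain ⟨b, rfl⟩ := Submodule.mkQ_surjective _ b
  obtain ⟨c, rfl⟩ := Submodule.mkQ_surjective _ c
  rw [LinearMap.lsmul_apply, ← map_smul, ← map_smul, ← map_smul, ← map_add, one_step_eq] at h
  simp only [smul_eq_mul] at h
  obtain ⟨s, hs⟩ := h
  obtain ⟨b', c', d', h'⟩ := F.L24 ((v - z) * a) b (c - a) s (by linear_combination hs)
  obtain ⟨b', c', d', h'⟩ := F.L25 a b' c' d' h'
  refine ⟨(LinearMap.range (sc (y - z ^ 2) A)).mkQ b',
    (LinearMap.range (sc (y - z ^ 2) A)).mkQ c', ?_⟩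
  rw [← map_smul, ← map_smul, ← map_add, one_step_eq]
  refine ⟨d', ?_⟩
  simp only [smul_eq_mul]
  linear_combination h'

theorem good_C2 (F : Facts x y u v z) : Good x u z (C2 y u v z) :=
  lemL_good _ (good_Q2 F) (lemC2b F)

/-! ### The module `K` -/

variable (x y u v z)

/-- `A³ / α`. -/
abbrev Ca : Type := (A × A × A) ⧸ LinearMap.range (alpha x y u z)

variable {x y u v z}

theorem range_le (F : Facts x y u v z) :
    LinearMap.range (alpha x y u z) ≤ (LinearMap.range (alpha x y u z)).comap (beta x y v z) := by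
  rintro _ ⟨w, rfl⟩
  exact ⟨beta' x y v z w, (beta_alpha F w).symm⟩

/-- `β` on `A³ / α`. -/
def betaBar (F : Facts x y u v z) : Ca x y u z →ₗ[A] Ca x y u z :=
  Submodule.mapQ _ _ (beta x y v z) (range_le F)

/-- `K = A³ / (α, β)`. -/
abbrev K (F : Facts x y u v z) : Type := Ca x y u z ⧸ LinearMap.range (betaBar F)

theorem alpha_h1 (F : Facts x y u v z) (a b : A × A × A) (h : alpha x y u z a = z • b) :
    ∃ c, a = z • c := by
  obtain ⟨a3, a1, a2⟩ := a
  obtain ⟨b3, b1, b2⟩ := b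
  rw [alpha_apply, Prod.smul_mk, Prod.smul_mk, Prod.mk.injEq, Prod.mk.injEq] at h
  simp only [smul_eq_mul] at h
  obtain ⟨h3, h1, h2⟩ := h
  obtain ⟨c3, hc3⟩ := F.L15 a3 (b3 - a2) (by linear_combination h3)
  obtain ⟨c1, hc1⟩ := F.L15 a1 (b1 + c3 * (y - z ^ 2)) (by
    rw [hc3] at h1; linear_combination h1)
  obtain ⟨c2, hc2⟩ := F.L15 a2 (b2 + c1 * (y - z ^ 2) - c3 * x ^ 2) (by
    rw [hc1, hc3] at h2; linear_combination h2)
  refine ⟨(c3, c1, c2), ?_⟩
  rw [Prod.smul_mk, Prod.smul_mk, hc3, hc1, hc2]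
  rfl

theorem alpha_inj (F : Facts x y u v z) : Function.Injective (alpha x y u z) := by
  refine lemL_inj F.xz F.uz _ (good_prod (good_A F) (good_prod (good_A F) (good_A F)))
    (alpha_h1 F) ?_
  intro a b c h
  obtain ⟨a3, a1, a2⟩ := a
  obtain ⟨b3, b1, b2⟩ := b
  obtain ⟨c3, c1, c2⟩ := c
  simp only [alpha_apply, Prod.smul_mk, Prod.mk_add_mk, Prod.mk.injEq, smul_eq_mul] at h
  obtain ⟨h3, h1, h2⟩ := h
  obtain ⟨e2, f2, hef2⟩ := F.L21 a2 b3 (c3 - a3) (by linear_combination h3)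
  obtain ⟨e3, f3, hef3⟩ := F.L23 a3 (-b1) (a1 - c1) (by linear_combination -h1)
  obtain ⟨e1, f1, hef1⟩ := F.L23 a1 (a3 * x - b2) (a2 - c2) (by linear_combination -h2)
  refine ⟨(e3, e1, e2), (f3, f1, f2), ?_⟩
  simp only [Prod.smul_mk, Prod.mk_add_mk, smul_eq_mul]
  rw [← hef3, ← hef1, ← hef2]

theorem good_Ca (F : Facts x y u v z) : Good x u z (Ca x y u z) :=
  lemL_good _ (good_prod (good_A F) (good_prod (good_A F) (good_A F))) (alpha_h1 F)

/-- Equality in `A³ / α`. -/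
theorem Ca_eq (a b : A × A × A) :
    (LinearMap.range (alpha x y u z)).mkQ a = (LinearMap.range (alpha x y u z)).mkQ b ↔
      ∃ s, a = b + alpha x y u z s := by
  rw [← sub_eq_zero, ← map_sub, Submodule.mkQ_apply, Submodule.Quotient.mk_eq_zero]
  constructor
  · rintro ⟨s, hs⟩
    exact ⟨s, by rw [hs]; abel⟩
  · rintro ⟨s, hs⟩
    exact ⟨s, by rw [hs]; abel⟩

theorem betaBar_mk (F : Facts x y u v z) (w : A × A × A) :
    betaBar F ((LinearMap.range (alpha x y u z)).mkQ w) =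
      (LinearMap.range (alpha x y u z)).mkQ (beta x y v z w) := rfl

/-- If `β w ∈ α A³ + z A³` then `w ∈ α A³ + z A³`. -/
theorem beta_h1_aux (F : Facts x y u v z) (w s b : A × A × A)
    (h : beta x y v z w = z • b + alpha x y u z s) :
    ∃ c t, w = z • c + alpha x y u z t := by
  obtain ⟨w3, w1, w2⟩ := w
  obtain ⟨s3, s1, s2⟩ := s
  obtain ⟨b3, b1, b2⟩ := b
  simp only [beta_apply, alpha_apply, Prod.smul_mk, Prod.mk_add_mk, Prod.mk.injEq,
    smul_eq_mul] at h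
  obtain ⟨h3, h1, h2⟩ := h
  have hxz := F.xz
  have huz := F.uz
  have hq := F.q
  -- first coordinate
  obtain ⟨c3, t3, hw3⟩ := F.L16 w3 (b3 + s2 + w1 * y) s3 (by linear_combination h3)
  -- v t3 - s3 is divisible by z
  obtain ⟨r3, hr3⟩ := F.L15 (v * t3 - s3) (b3 + s2 + w1 * y - v * c3) (by
    rw [hw3] at h3; linear_combination h3)
  -- second coordinate
  obtain ⟨c1, t1, hw1⟩ := F.L16 (w1 + (y - z ^ 2) * t3)
    (b1 + c3 * x + (y - z ^ 2) * r3) (s1 + t3 * x) (by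
      rw [hw3] at h1
      linear_combination h1 + (y - z ^ 2) * hr3)
  obtain ⟨r1, hr1⟩ := F.L15 (v * t1 - (s1 + t3 * x)) (b1 + c3 * x + (y - z ^ 2) * r3 - v * c1) (by
    rw [hw3] at h1
    linear_combination h1 + (y - z ^ 2) * hr3 - v * hw1)
  -- third coordinate
  obtain ⟨c2, t2, hw2⟩ := F.L16 (w2 - t3 * x ^ 2 + t1 * (y - z ^ 2))
    (w2 + b2 - r3 * x ^ 2 + r1 * (y - z ^ 2) - c3 * (y ^ 2 - z ^ 4) + c1 * (x - z)
      + (y - z ^ 2) * t3 - u * t1) (s2 - t3 * (y ^ 2 - z ^ 4) + t1 * x) (by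
      rw [hw3] at h2
      linear_combination h2 - x ^ 2 * hr3 + (y - z ^ 2) * hr1 + (x - z) * hw1)
  refine ⟨(c3 - t2, c1, c2), (t3, t1, t2), ?_⟩
  simp only [alpha_apply, Prod.smul_mk, Prod.mk_add_mk, smul_eq_mul]
  refine Prod.ext ?_ (Prod.ext ?_ ?_)
  · simp only
    linear_combination hw3
  · simp only
    linear_combination hw1
  · simp only
    linear_combination hw2

/-- If `β w ∈ α A³ + (x, u) A³` then `w ∈ α A³ + (x, u) A³`. -/
theorem beta_h2_aux (F : Facts x y u v z) (w s b c : A × A × A)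
    (h : beta x y v z w = x • b + u • c + alpha x y u z s) :
    ∃ b' c' t, w = x • b' + u • c' + alpha x y u z t := by
  obtain ⟨w3, w1, w2⟩ := w
  obtain ⟨s3, s1, s2⟩ := s
  obtain ⟨b3, b1, b2⟩ := b
  obtain ⟨c3, c1, c2⟩ := c
  simp only [beta_apply, alpha_apply, Prod.smul_mk, Prod.mk_add_mk, Prod.mk.injEq,
    smul_eq_mul] at h
  obtain ⟨h3, h1, h2⟩ := h
  obtain ⟨e3, f3, g3, hw3⟩ := F.L26 w3 b3 (c3 + s3) (s2 + w1 * y) (by linear_combination h3)
  obtain ⟨e1, f1, g1, hw1⟩ := F.L24 w1 (b1 + w3) (c1 + s1) (-s3) (by linear_combination h1)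
  obtain ⟨e2, f2, g2, hw2⟩ := F.L25 w2 (b2 + s3 * x + w1 - z * e1) (c2 + s2 - z * f1)
    (-s1 - w3 * (y + z ^ 2) - z * g1) (by
      linear_combination h2 - z * hw1)
  refine ⟨(e3, e1, e2 + x * g1), (f3 + g1, f1 + g2, f2 - g3), (-g1, -g2, g3), ?_⟩
  simp only [alpha_apply, Prod.smul_mk, Prod.mk_add_mk, smul_eq_mul]
  refine Prod.ext ?_ (Prod.ext ?_ ?_)
  · simp only
    linear_combination hw3
  · simp only
    linear_combination hw1
  · simp only
    linear_combination hw2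

theorem betaBar_h1 (F : Facts x y u v z) (a b : Ca x y u z) (h : betaBar F a = z • b) :
    ∃ c, a = z • c := by
  obtain ⟨a, rfl⟩ := Submodule.mkQ_surjective _ a
  obtain ⟨b, rfl⟩ := Submodule.mkQ_surjective _ b
  rw [betaBar_mk, ← map_smul, Ca_eq] at h
  obtain ⟨s, hs⟩ := h
  obtain ⟨c, t, hct⟩ := beta_h1_aux F a s b hs
  refine ⟨(LinearMap.range (alpha x y u z)).mkQ c, ?_⟩
  rw [← map_smul, Ca_eq]
  exact ⟨t, hct⟩

theorem betaBar_inj (F : Facts x y u v z) : Function.Injective (betaBar F) := by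
  refine lemL_inj F.xz F.uz _ (good_Ca F) (betaBar_h1 F) ?_
  intro a b c h
  obtain ⟨a, rfl⟩ := Submodule.mkQ_surjective _ a
  obtain ⟨b, rfl⟩ := Submodule.mkQ_surjective _ b
  obtain ⟨c, rfl⟩ := Submodule.mkQ_surjective _ c
  rw [betaBar_mk, ← map_smul, ← map_smul, ← map_add, Ca_eq] at h
  obtain ⟨s, hs⟩ := h
  obtain ⟨b', c', t, hct⟩ := beta_h2_aux F a s b c hs
  refine ⟨(LinearMap.range (alpha x y u z)).mkQ b', (LinearMap.range (alpha x y u z)).mkQ c', ?_⟩
  rw [← map_smul, ← map_smul, ← map_add, Ca_eq]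
  exact ⟨t, hct⟩

/-- the projection `A³ → K` -/
abbrev piK (F : Facts x y u v z) : (A × A × A) →ₗ[A] K F :=
  (LinearMap.range (betaBar F)).mkQ ∘ₗ (LinearMap.range (alpha x y u z)).mkQ

theorem piK_surj (F : Facts x y u v z) : Function.Surjective (piK F) :=
  (Submodule.mkQ_surjective _).comp (Submodule.mkQ_surjective _)

theorem piK_eq (F : Facts x y u v z) (a b : A × A × A) :
    piK F a = piK F b ↔ ∃ s t, a = b + alpha x y u z s + beta x y v z t := by
  rw [← sub_eq_zero, ← map_sub, LinearMap.comp_apply, Submodule.mkQ_apply,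
    Submodule.Quotient.mk_eq_zero]
  constructor
  · rintro ⟨q, hq⟩
    obtain ⟨t, rfl⟩ := Submodule.mkQ_surjective _ q
    rw [betaBar_mk, Ca_eq] at hq
    obtain ⟨s, hs⟩ := hq
    refine ⟨-s, t, ?_⟩
    rw [hs, map_neg]
    abel
  · rintro ⟨s, t, h⟩
    refine ⟨(LinearMap.range (alpha x y u z)).mkQ t, ?_⟩
    rw [betaBar_mk, Ca_eq]
    refine ⟨-s, ?_⟩
    rw [h, map_neg]
    abel

theorem pi1_eq_zero (a : A) : pi1 x y u v z a = 0 ↔ ∃ s t, a = (x - z * y) * s + (v + u ^ 2) * t :=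
  two_step_eq_zero _ _ a

theorem pi2_eq_zero (a : A) :
    pi2 y u v z a = 0 ↔ ∃ s t, a = (y - z ^ 2) * s + (u + v ^ 2 - z * v) * t :=
  two_step_eq_zero _ _ a

/-- the map `A³ → C₁ × C₂`. -/
def kappa0 (x y u v z : A) : (A × A × A) →ₗ[A] C1 x y u v z × C2 y u v z :=
  (pi1 x y u v z ∘ₗ m1 y u).prod (pi2 y u v z ∘ₗ m2 x v z)

theorem kappa0_apply (w : A × A × A) :
    kappa0 x y u v z w = (pi1 x y u v z (m1 y u w), pi2 y u v z (m2 x v z w)) := rfl

theorem m1_alpha (F : Facts x y u v z) (s : A × A × A) :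
    ∃ e f, m1 y u (alpha x y u z s) = (x - z * y) * e + (v + u ^ 2) * f := by
  obtain ⟨a, b, c⟩ := s
  have hxz := F.xz
  have huz := F.uz
  have hq := F.q
  rw [alpha_apply, m1_apply]
  refine ⟨a * x * u ^ 2 - c * y, c * u, ?_⟩
  linear_combination (a * z * y + a * x * u * y + b * z * u) * huz + c * hq

theorem m2_alpha (F : Facts x y u v z) (s : A × A × A) :
    ∃ e f, m2 x v z (alpha x y u z s) = (y - z ^ 2) * e + (u + v ^ 2 - z * v) * f := by
  obtain ⟨a, b, c⟩ := s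
  have hxz := F.xz
  have huz := F.uz
  have hq := F.q
  rw [alpha_apply, m2_apply]
  refine ⟨a * x * v - a * z ^ 2 + b * v ^ 2 - b * x ^ 2 - c * v * x, -(a * x ^ 2), ?_⟩
  linear_combination (b * x + c * v) * hq + (-(c * x) - a * x * v - z * b * x - z * c * v) * hxz
    + (b * z) * huz

theorem m1_beta (F : Facts x y u v z) (s : A × A × A) :
    ∃ e f, m1 y u (beta x y v z s) = (x - z * y) * e + (v + u ^ 2) * f := by
  obtain ⟨a, b, c⟩ := s
  have hxz := F.xz
  have huz := F.uz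
  have hq := F.q
  rw [beta_apply, m1_apply]
  refine ⟨-(a * u * y) + b * y ^ 2 - b * u ^ 2 + c * u * y, a * y ^ 2, ?_⟩
  linear_combination (-(b * y) - c * u) * hq +
    (-(a * z ^ 3 * u) - a * y ^ 2 + b * u - b * y * u - c * u + c * y ^ 2) * huz

theorem m2_beta (F : Facts x y u v z) (s : A × A × A) :
    ∃ e f, m2 x v z (beta x y v z s) = (y - z ^ 2) * e + (u + v ^ 2 - z * v) * f := by
  obtain ⟨a, b, c⟩ := s
  have hxz := F.xz
  have huz := F.uz
  have hq := F.q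
  rw [beta_apply, m2_apply]
  refine ⟨-(a * (y + z ^ 2) * v ^ 2) + c * x, -(b * z) - c * v, ?_⟩
  linear_combination (-c) * hq + (b * y * x - a * z + c * z) * hxz + b * huz

theorem kappa0_alpha (F : Facts x y u v z) (s : A × A × A) :
    kappa0 x y u v z (alpha x y u z s) = 0 := by
  have h1 : pi1 x y u v z (m1 y u (alpha x y u z s)) = 0 := (pi1_eq_zero _).mpr (m1_alpha F s)
  have h2 : pi2 y u v z (m2 x v z (alpha x y u z s)) = 0 := (pi2_eq_zero _).mpr (m2_alpha F s)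
  rw [kappa0_apply, h1, h2, Prod.mk_zero_zero]

theorem kappa0_beta (F : Facts x y u v z) (s : A × A × A) :
    kappa0 x y u v z (beta x y v z s) = 0 := by
  have h1 : pi1 x y u v z (m1 y u (beta x y v z s)) = 0 := (pi1_eq_zero _).mpr (m1_beta F s)
  have h2 : pi2 y u v z (m2 x v z (beta x y v z s)) = 0 := (pi2_eq_zero _).mpr (m2_beta F s)
  rw [kappa0_apply, h1, h2, Prod.mk_zero_zero]

/-- The map `K → C₁ × C₂`. -/
def kappa (F : Facts x y u v z) : K F →ₗ[A] C1 x y u v z × C2 y u v z :=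
  Submodule.liftQ _ (Submodule.liftQ _ (kappa0 x y u v z) (by
    rintro _ ⟨s, rfl⟩
    exact kappa0_alpha F s)) (by
    rintro _ ⟨q, rfl⟩
    obtain ⟨t, rfl⟩ := Submodule.mkQ_surjective _ q
    exact kappa0_beta F t)

theorem kappa_mk (F : Facts x y u v z) (w : A × A × A) :
    kappa F (piK F w) = (pi1 x y u v z (m1 y u w), pi2 y u v z (m2 x v z w)) := rfl

/-- Level one: if `m₁ w ∈ (z, x, v + u²)` and `m₂ w ∈ (z, y, u + v²)` then
`w ∈ α A³ + β A³ + z A³`. -/
theorem level1 (F : Facts x y u v z) (w : A × A × A)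
    (h1 : ∃ a b c, m1 y u w = z * a + x * b + (v + u ^ 2) * c)
    (h2 : ∃ a b c, m2 x v z w = z * a + y * b + (u + v ^ 2) * c) :
    ∃ r s t, w = z • r + alpha x y u z s + beta x y v z t := by
  have hA1 : ∀ s, ∃ a b c, m1 y u (alpha x y u z s) = z * a + x * b + (v + u ^ 2) * c := by
    intro s
    obtain ⟨e, f, hef⟩ := m1_alpha F s
    exact ⟨-(y * e), e, f, by rw [hef]; ring⟩
  have hB1 : ∀ s, ∃ a b c, m1 y u (beta x y v z s) = z * a + x * b + (v + u ^ 2) * c := by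
    intro s
    obtain ⟨e, f, hef⟩ := m1_beta F s
    exact ⟨-(y * e), e, f, by rw [hef]; ring⟩
  have hA2 : ∀ s, ∃ a b c, m2 x v z (alpha x y u z s) = z * a + y * b + (u + v ^ 2) * c := by
    intro s
    obtain ⟨e, f, hef⟩ := m2_alpha F s
    exact ⟨-(z * e) - v * f, e, f, by rw [hef]; ring⟩
  have hB2 : ∀ s, ∃ a b c, m2 x v z (beta x y v z s) = z * a + y * b + (u + v ^ 2) * c := by
    intro s
    obtain ⟨e, f, hef⟩ := m2_beta F s
    exact ⟨-(z * e) - v * f, e, f, by rw [hef]; ring⟩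
  -- reduction step
  have red : ∀ w r s t : A × A × A,
      (∃ a b c, m1 y u w = z * a + x * b + (v + u ^ 2) * c) →
      (∃ a b c, m2 x v z w = z * a + y * b + (u + v ^ 2) * c) →
      (∃ a b c, m1 y u (w - (z • r + alpha x y u z s + beta x y v z t)) =
        z * a + x * b + (v + u ^ 2) * c) ∧
      (∃ a b c, m2 x v z (w - (z • r + alpha x y u z s + beta x y v z t)) =
        z * a + y * b + (u + v ^ 2) * c) := by
    rintro w r s t ⟨a, b, c, h⟩ ⟨a', b', c', h'⟩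
    obtain ⟨a1, b1, c1, k1⟩ := hA1 s
    obtain ⟨a2, b2, c2, k2⟩ := hB1 t
    obtain ⟨a3, b3, c3, k3⟩ := hA2 s
    obtain ⟨a4, b4, c4, k4⟩ := hB2 t
    constructor
    · refine ⟨a - m1 y u r - a1 - a2, b - b1 - b2, c - c1 - c2, ?_⟩
      rw [map_sub, map_add, map_add, map_smul, h, k1, k2, smul_eq_mul]
      ring
    · refine ⟨a' - m2 x v z r - a3 - a4, b' - b3 - b4, c' - c3 - c4, ?_⟩
      rw [map_sub, map_add, map_add, map_smul, h', k3, k4, smul_eq_mul]
      ring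
  obtain ⟨w3, w1, w2⟩ := w
  -- first step
  have step1 : ∃ r s t w1' w2', (w3, w1, w2) - (z • r + alpha x y u z s + beta x y v z t) =
      ((0 : A), w1', w2') := by
    obtain ⟨a, b, c, h1⟩ := h1
    obtain ⟨a', b', c', h2⟩ := h2
    rw [m1_apply] at h1
    rw [m2_apply] at h2
    obtain ⟨b1, c1, d1, e1, k1⟩ := F.S1 _ _ _ _ _ _ h1
    obtain ⟨b2, c2, d2, e2, k2⟩ := F.T1 w3 w1 w2 (-a' + z * w1) (-b') (-c')
      (by linear_combination -h2)
    obtain ⟨a3, b3, c3, hw3⟩ := F.M _ _ _ _ _ _ _ _ _ k1 k2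
    refine ⟨(c3, 0, 0), (a3, 0, 0), (b3, 0, 0), w1 + a3 * (y - z ^ 2) + b3 * x,
      w2 - a3 * x ^ 2 - b3 * (y ^ 2 - z ^ 4), ?_⟩
    rw [alpha_apply, beta_apply, Prod.smul_mk, Prod.smul_mk, hw3]
    refine Prod.ext ?_ (Prod.ext ?_ ?_) <;> simp <;> ring
  obtain ⟨r1, s1, t1, w1', w2', hw'⟩ := step1
  obtain ⟨h1', h2'⟩ := red _ r1 s1 t1 h1 h2
  rw [hw'] at h1' h2'
  have step2 : ∃ r s t w2'', ((0 : A), w1', w2') - (z • r + alpha x y u z s + beta x y v z t) =
      ((0 : A), (0 : A), w2'') := by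
    obtain ⟨a, b, c, h1⟩ := h1'
    obtain ⟨a', b', c', h2⟩ := h2'
    rw [m1_apply] at h1
    rw [m2_apply] at h2
    obtain ⟨b1, c1, d1, e1, k1⟩ := F.S2 w1' w2' a b c (by linear_combination h1)
    obtain ⟨b2, c2, d2, e2, k2⟩ := F.T2 w1' w2' (-a' + z * w1') (-b') (-c')
      (by linear_combination -h2)
    obtain ⟨a3, b3, c3, hw3⟩ := F.M _ _ _ _ _ _ _ _ _ k1 k2
    refine ⟨(b3 * y, c3, 0), (0, a3, 0), (0, b3, 0),
      w2' + a3 * (y - z ^ 2) + b3 * (x - z), ?_⟩
    rw [alpha_apply, beta_apply, Prod.smul_mk, Prod.smul_mk, hw3]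
    refine Prod.ext ?_ (Prod.ext ?_ ?_) <;> simp <;> ring
  obtain ⟨r2, s2, t2, w2'', hw''⟩ := step2
  obtain ⟨h1'', h2''⟩ := red _ r2 s2 t2 h1' h2'
  rw [hw''] at h1'' h2''
  have step3 : ∃ r s t, ((0 : A), (0 : A), w2'') = z • r + alpha x y u z s + beta x y v z t := by
    obtain ⟨a, b, c, h1⟩ := h1''
    obtain ⟨a', b', c', h2⟩ := h2''
    rw [m1_apply] at h1
    rw [m2_apply] at h2
    obtain ⟨b1, c1, d1, e1, k1⟩ := F.S3 w2'' a b c (by linear_combination h1)
    obtain ⟨b2, c2, d2, e2, k2⟩ := F.T3 w2'' (-a') (-b') (-c')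
      (by linear_combination -h2)
    obtain ⟨a3, b3, c3, hw3⟩ := F.M _ _ _ _ _ _ _ _ _ k1 k2
    refine ⟨(-a3, 0, c3 + b3), (0, 0, a3), (0, 0, b3), ?_⟩
    rw [alpha_apply, beta_apply, Prod.smul_mk, Prod.smul_mk, hw3]
    refine Prod.ext ?_ (Prod.ext ?_ ?_) <;> simp <;> ring
  obtain ⟨r3, s3, t3, hw3⟩ := step3
  refine ⟨r1 + r2 + r3, s1 + s2 + s3, t1 + t2 + t3, ?_⟩
  have e1 := sub_eq_iff_eq_add.mp hw'
  have e2 := sub_eq_iff_eq_add.mp hw''
  rw [e1, e2, hw3]
  simp only [map_add, smul_add]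
  abel

/-- Level two. -/
theorem level2 (F : Facts x y u v z) (w : A × A × A)
    (h1 : ∃ a b c d, m1 y u w = x * a + u * b + v * c + z * y * d)
    (h2 : ∃ a b c d, m2 x v z w = x * a + u * b + (y - z ^ 2) * c + (v ^ 2 - z * v) * d) :
    ∃ r r' s t, w = x • r + u • r' + alpha x y u z s + beta x y v z t := by
  obtain ⟨w3, w1, w2⟩ := w
  obtain ⟨a, b, c, d, h1⟩ := h1
  obtain ⟨a', b', c', d', h2⟩ := h2
  rw [m1_apply] at h1
  rw [m2_apply] at h2
  obtain ⟨a1, b1, c1, d1, hw3⟩ := F.L27a w3 a (b - w1 * y - w2 * u) c d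
    (by linear_combination h1)
  obtain ⟨e, f, a2, b2, c2, a3, b3, c3, hw1, hw2⟩ := F.L27b w1 w2 (a' + w3 * x + w1 * v) b' c' d'
    (by linear_combination h2)
  refine ⟨(a1, a2 + c1, a3 + e + x * c2 ), (b1 + c2, b2 + c3 - c1 * (y + z ^ 2), b3 - d1 - e * y), (-c2, -(c3 - c1 * (y + z ^ 2)), d1 + e * y),
    (c1, e, f), ?_⟩
  rw [alpha_apply, beta_apply]
  simp only [Prod.smul_mk, Prod.mk_add_mk, smul_eq_mul]
  refine Prod.ext ?_ (Prod.ext ?_ ?_)
  · simp only
    linear_combination hw3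
  · simp only
    linear_combination hw1
  · simp only
    linear_combination hw2

theorem pi1_surj : Function.Surjective (pi1 x y u v z) :=
  (Submodule.mkQ_surjective _).comp (Submodule.mkQ_surjective _)

theorem pi2_surj : Function.Surjective (pi2 y u v z) :=
  (Submodule.mkQ_surjective _).comp (Submodule.mkQ_surjective _)

theorem kappa_h1 (F : Facts x y u v z) (a : K F) (b : C1 x y u v z × C2 y u v z)
    (h : kappa F a = z • b) : ∃ c : K F, a = z • c := by
  obtain ⟨w, rfl⟩ := piK_surj F a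
  obtain ⟨b1, b2⟩ := b
  obtain ⟨b1, rfl⟩ := pi1_surj b1
  obtain ⟨b2, rfl⟩ := pi2_surj b2
  rw [kappa_mk, Prod.smul_mk, ← map_smul, ← map_smul, Prod.mk.injEq, ← sub_eq_zero, ← map_sub,
    pi1_eq_zero, ← sub_eq_zero, ← map_sub, pi2_eq_zero] at h
  obtain ⟨⟨s1, t1, h1⟩, ⟨s2, t2, h2⟩⟩ := h
  rw [smul_eq_mul] at h1 h2
  obtain ⟨r, s, t, hw⟩ := level1 F w ⟨b1 - y * s1, s1, t1, by linear_combination h1⟩
    ⟨b2 - z * s2 - v * t2, s2, t2, by linear_combination h2⟩
  refine ⟨piK F r, ?_⟩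
  rw [← map_smul, piK_eq]
  exact ⟨s, t, hw⟩

theorem kappa_h2 (F : Facts x y u v z) (a : K F) (b c : C1 x y u v z × C2 y u v z)
    (h : kappa F a = x • b + u • c) : ∃ b' c' : K F, a = x • b' + u • c' := by
  obtain ⟨w, rfl⟩ := piK_surj F a
  obtain ⟨b1, b2⟩ := b
  obtain ⟨b1, rfl⟩ := pi1_surj b1
  obtain ⟨b2, rfl⟩ := pi2_surj b2
  obtain ⟨c1, c2⟩ := c
  obtain ⟨c1, rfl⟩ := pi1_surj c1
  obtain ⟨c2, rfl⟩ := pi2_surj c2
  rw [kappa_mk, Prod.smul_mk, Prod.smul_mk, ← map_smul, ← map_smul, ← map_smul, ← map_smul,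
    Prod.mk_add_mk, ← map_add, ← map_add, Prod.mk.injEq, ← sub_eq_zero, ← map_sub,
    pi1_eq_zero, ← sub_eq_zero, ← map_sub, pi2_eq_zero] at h
  obtain ⟨⟨s1, t1, h1⟩, ⟨s2, t2, h2⟩⟩ := h
  simp only [smul_eq_mul] at h1 h2
  obtain ⟨r, r', s, t, hw⟩ := level2 F w ⟨b1 + s1, c1 + u * t1, t1, -s1, by linear_combination h1⟩
    ⟨b2, c2 + t2, s2, t2, by linear_combination h2⟩
  refine ⟨piK F r, piK F r', ?_⟩
  rw [← map_smul, ← map_smul, ← map_add, piK_eq]
  exact ⟨s, t, hw⟩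

theorem kappa_inj (F : Facts x y u v z) : Function.Injective (kappa F) :=
  lemL_inj F.xz F.uz _ (good_prod (good_C1 F) (good_C2 F)) (kappa_h1 F) (kappa_h2 F)

/-- The module `N = (C₁ × C₂) / K`. -/
abbrev NN (F : Facts x y u v z) : Type := (C1 x y u v z × C2 y u v z) ⧸ LinearMap.range (kappa F)

theorem pd_C1 (F : Facts x y u v z) :
    HasProjectiveDimensionLT (ModuleCat.of A (C1 x y u v z)) 3 := by
  have h0 : HasProjectiveDimensionLT (ModuleCat.of A A) 1 := pd_free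
  have h1 : HasProjectiveDimensionLT (ModuleCat.of A (Q1 x y z)) 2 :=
    pd_coker _ (inj_c1 F) 1 h0 (hasProjectiveDimensionLT_of_ge _ 1 2 (by norm_num))
  exact pd_coker _ (inj_d1 F) 2 h1 (hasProjectiveDimensionLT_of_ge _ 2 3 (by norm_num))

theorem pd_C2 (F : Facts x y u v z) :
    HasProjectiveDimensionLT (ModuleCat.of A (C2 y u v z)) 3 := by
  have h0 : HasProjectiveDimensionLT (ModuleCat.of A A) 1 := pd_free
  have h1 : HasProjectiveDimensionLT (ModuleCat.of A (Q2 y z)) 2 :=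
    pd_coker _ (inj_c2 F) 1 h0 (hasProjectiveDimensionLT_of_ge _ 1 2 (by norm_num))
  exact pd_coker _ (inj_d2 F) 2 h1 (hasProjectiveDimensionLT_of_ge _ 2 3 (by norm_num))

theorem pd_K (F : Facts x y u v z) :
    HasProjectiveDimensionLT (ModuleCat.of A (K F)) 3 := by
  have h0 : HasProjectiveDimensionLT (ModuleCat.of A (A × A × A)) 1 := pd_free
  have h1 : HasProjectiveDimensionLT (ModuleCat.of A (Ca x y u z)) 2 :=
    pd_coker _ (alpha_inj F) 1 h0 (hasProjectiveDimensionLT_of_ge _ 1 2 (by norm_num))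
  exact pd_coker _ (betaBar_inj F) 2 h1 (hasProjectiveDimensionLT_of_ge _ 2 3 (by norm_num))

/-- `N` has projective dimension at most `3`. -/
theorem pd_NN (F : Facts x y u v z) :
    HasProjectiveDimensionLT (ModuleCat.of A (NN F)) 4 := by
  have h0 := pd_prod 3 (pd_C1 F) (pd_C2 F)
  exact pd_coker _ (kappa_inj F) 3 (pd_K F) (hasProjectiveDimensionLT_of_ge _ 3 4 (by norm_num))

end maps

end Pool.Agent.Lib.MP_799861_al
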