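import Pool.Agent.Lib.MP_799861_al.Chain

set_option autoImplicit false

namespace Pool.Agent.Lib.MP_799861_al

section

variable {A : Type} [CommRing A] {x y u v z : A}

/-- the projection `A × A → N` -/
abbrev piN (F : Facts x y u v z) : (C1 x y u v z × C2 y u v z) →ₗ[A] NN F :=
  (LinearMap.range (kappa F)).mkQ

theorem NN_rel (F : Facts x y u v z) (a b a' b' s t s' t' : A) (w : A × A × A)
    (h1 : a = z * a' + m1 y u w + (x - z * y) * s + (v + u ^ 2) * t)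
    (h2 : b = z * b' + m2 x v z w + (y - z ^ 2) * s' + (u + v ^ 2 - z * v) * t') :
    piN F (pi1 x y u v z a, pi2 y u v z b) =
      z • piN F (pi1 x y u v z a', pi2 y u v z b') := by
  rw [← map_smul, ← sub_eq_zero, ← map_sub, Submodule.mkQ_apply, Submodule.Quotient.mk_eq_zero]
  refine ⟨piK F w, ?_⟩
  rw [kappa_mk, Prod.smul_mk, Prod.mk_sub_mk, ← map_smul, ← map_smul, ← map_sub, ← map_sub]
  refine Prod.ext ?_ ?_
  · show pi1 x y u v z (m1 y u w) = pi1 x y u v z (a - z • a')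
    rw [← sub_eq_zero, ← map_sub, pi1_eq_zero]
    exact ⟨-s, -t, by rw [h1, smul_eq_mul]; ring⟩
  · show pi2 y u v z (m2 x v z w) = pi2 y u v z (b - z • b')
    rw [← sub_eq_zero, ← map_sub, pi2_eq_zero]
    exact ⟨-s', -t', by rw [h2, smul_eq_mul]; ring⟩

theorem NN_surj (F : Facts x y u v z) (n : NN F) :
    ∃ a b : A, n = piN F (pi1 x y u v z a, pi2 y u v z b) := by
  obtain ⟨⟨a, b⟩, rfl⟩ := Submodule.mkQ_surjective _ n
  obtain ⟨a, rfl⟩ := pi1_surj a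
  obtain ⟨b, rfl⟩ := pi2_surj b
  exact ⟨a, b, rfl⟩

theorem NN_smul (F : Facts x y u v z) (c a b : A) :
    c • piN F (pi1 x y u v z a, pi2 y u v z b) =
      piN F (pi1 x y u v z (c * a), pi2 y u v z (c * b)) := by
  rw [← map_smul, Prod.smul_mk, ← map_smul, ← map_smul, smul_eq_mul, smul_eq_mul]

theorem nil_x (F : Facts x y u v z) (n : NN F) : ∃ n', x ^ 3 • n = z • n' := by
  obtain ⟨a, b, rfl⟩ := NN_surj F n
  rw [NN_smul]
  refine ⟨_, NN_rel F _ _ (y * x ^ 2 * a + y ^ 3 * b) 0 (x ^ 2 * a + y ^ 2 * b) 0 0 0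
    (-(x * b), 0, 0) ?_ ?_⟩
  · rw [m1_apply]; ring
  · rw [m2_apply]; ring

theorem nil_y (F : Facts x y u v z) (n : NN F) : ∃ n', y ^ 3 • n = z • n' := by
  obtain ⟨a, b, rfl⟩ := NN_surj F n
  rw [NN_smul]
  refine ⟨_, NN_rel F _ _ 0 (z * (y ^ 2 * b + x ^ 2 * a)) 0 0 (y ^ 2 * b + x ^ 2 * a) 0
    (y * a, 0, 0) ?_ ?_⟩
  · rw [m1_apply]; ring
  · rw [m2_apply]; ring

theorem nil_u (F : Facts x y u v z) (n : NN F) : ∃ n', u ^ 3 • n = z • n' := by
  obtain ⟨a, b, rfl⟩ := NN_surj F n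
  rw [NN_smul]
  have hxz := F.xz
  have huz := F.uz
  have hq := F.q
  refine ⟨_, NN_rel F _ _ (-(y ^ 2 * a)) 0 (-(y * a)) (u * a) (-(x ^ 2 * y * b)) (u ^ 2 * b)
    (0, 0, 0) ?_ ?_⟩
  · rw [m1_apply]; linear_combination a * hq
  · rw [m2_apply]
    linear_combination (b * u * v + b * x * y) * hq + (u * v * b) * huz - (z * x * y * b) * hxz

theorem nil_v (F : Facts x y u v z) (n : NN F) : ∃ n', v ^ 3 • n = z • n' := by
  obtain ⟨a, b, rfl⟩ := NN_surj F n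
  rw [NN_smul]
  have hxz := F.xz
  have huz := F.uz
  have hq := F.q
  refine ⟨_, NN_rel F _ _ 0 (v ^ 2 * b) (-(x * y ^ 2 * a)) (v ^ 2 * a) (-(x * b)) (v * b)
    (0, 0, 0) ?_ ?_⟩
  · rw [m1_apply]
    linear_combination (a * u * v + a * x * y) * hq - (a * y ^ 3) * hxz
  · rw [m2_apply]
    linear_combination b * hq - (z * b) * hxz

theorem n0_spec (F : Facts x y u v z) (a : A)
    (h : a • piN F (pi1 x y u v z 1, pi2 y u v z 0) = 0) :
    ∃ w s t, a = m1 y u w + (x - z * y) * s + (v + u ^ 2) * t := by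
  rw [NN_smul, Submodule.mkQ_apply, Submodule.Quotient.mk_eq_zero] at h
  obtain ⟨k, hk⟩ := h
  obtain ⟨w, rfl⟩ := piK_surj F k
  rw [kappa_mk, Prod.mk.injEq] at hk
  have h1 := hk.1
  rw [eq_comm, ← sub_eq_zero, ← map_sub, pi1_eq_zero] at h1
  obtain ⟨s, t, h1⟩ := h1
  exact ⟨w, s, t, by linear_combination h1⟩

end

end Pool.Agent.Lib.MP_799861_al
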