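import Pool.Agent.Lib.MP_799861_al.Example

/-!
# The dimension of the ring of the counterexample
-/

set_option autoImplicit false

open MvPolynomial

namespace Pool.Agent.Lib.MP_799861_al

private theorem ker_sb_prime (i : Fin 5) : (RingHom.ker (sb i 0 : SS →ₐ[ℚ] SS)).IsPrime :=
  RingHom.ker_isPrime _

private theorem two_le (s : LTSeries (PrimeSpectrum SS)) (i : Fin 5) (a : SS) (h1 : X i ∈ s.head.asIdeal)
    (h2 : a ∈ s.head.asIdeal) (h3 : sb i 0 a ≠ 0) : s.length ≤ 3 := by
  let P1 : PrimeSpectrum SS := ⟨RingHom.ker (sb i 0 : SS →ₐ[ℚ] SS), ker_sb_prime i⟩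
  have hlt : P1 < s.head := by
    refine lt_of_le_of_ne ?_ ?_
    · intro b hb
      obtain ⟨c, hc⟩ := sb_zero_eq (i := i) (a := b) hb
      rw [hc]
      exact Ideal.mul_mem_right _ _ h1
    · intro h
      apply h3
      have : a ∈ P1.asIdeal := by rw [h]; exact h2
      exact this
  let P0 : PrimeSpectrum SS := ⟨⊥, Ideal.isPrime_bot⟩
  have hlt0 : P0 < P1 := by
    refine lt_of_le_of_ne (fun b hb => ?_) ?_
    · have hb0 : b = 0 := hb
      rw [hb0]
      exact Ideal.zero_mem _
    · intro h
      have h5 : (X i : SS) ∈ P1.asIdeal := sb_same i 0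
      rw [← h] at h5
      exact X_ne i h5
  have h4 := Order.LTSeries.length_le_krullDim ((s.cons P1 hlt).cons P0 (by
    rw [RelSeries.head_cons]
    exact hlt0))
  have h5 : Order.krullDim (PrimeSpectrum SS) = 5 := by
    have := MvPolynomial.ringKrullDim_of_isNoetherianRing (R := ℚ) (ι := Fin 5)
    rw [ringKrullDim_eq_zero_of_field, zero_add, Nat.card_fin] at this
    exact this
  rw [h5] at h4
  have h6 : ((s.cons P1 hlt).cons P0 (by
    rw [RelSeries.head_cons]
    exact hlt0)).length = s.length + 2 := by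
    simp [RelSeries.cons_length]
  rw [h6] at h4
  have h7 : s.length + 2 ≤ 5 := by exact_mod_cast h4
  omega

theorem dim_AA_le : ringKrullDim AA ≤ 3 := by
  unfold ringKrullDim
  rw [Order.krullDim]
  refine iSup_le fun p => ?_
  have hmono : StrictMono (PrimeSpectrum.comap (Ideal.Quotient.mk II)) := by
    intro P Q hPQ
    refine lt_of_le_of_ne (Ideal.comap_mono hPQ.le) ?_
    intro h
    apply hPQ.ne
    exact PrimeSpectrum.comap_injective_of_surjective _ Ideal.Quotient.mk_surjective h
  let s := p.map _ hmono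
  have hs : s.length = p.length := rfl
  have hhead : s.head.asIdeal = p.head.asIdeal.comap (Ideal.Quotient.mk II) := rfl
  have hzero : mk (X 0) * mk (X 4) ∈ p.head.asIdeal := by
    have : mk (X 0) * mk (X 4) = 0 := facts_AA.xz
    rw [this]
    exact Ideal.zero_mem _
  have hzero2 : mk (X 2) * mk (X 4) ∈ p.head.asIdeal := by
    have : mk (X 2) * mk (X 4) = 0 := facts_AA.uz
    rw [this]
    exact Ideal.zero_mem _
  have hlen : s.length ≤ 3 := by
    by_cases h4 : mk (X 4) ∈ p.head.asIdeal
    · refine two_le s 4 (X 0 * X 1 - X 2 * X 3) h4 ?_ ?_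
      · rw [hhead, Ideal.mem_comap]
        have : mk (X 0 * X 1 - X 2 * X 3) = 0 := by
          rw [Ideal.Quotient.eq_zero_iff_mem, mem_II]
          exact ⟨0, 0, 1, by ring⟩
        have h5 : Ideal.Quotient.mk II (X 0 * X 1 - X 2 * X 3) = 0 := this
        rw [h5]
        exact Ideal.zero_mem _
      · rw [map_sub, map_mul, map_mul, sb_ne (by decide), sb_ne (by decide), sb_ne (by decide),
          sb_ne (by decide)]
        intro h
        have h6 := congrArg (sb 2 0) h
        rw [map_sub, map_mul, map_mul, sb_ne (by decide), sb_ne (by decide), sb_same, zero_mul,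
          sub_zero, map_zero] at h6
        exact mul_ne_zero (X_ne 0) (X_ne 1) h6
    · have h0 : mk (X 0) ∈ p.head.asIdeal := (p.head.2.mem_or_mem hzero).resolve_right h4
      have h2 : mk (X 2) ∈ p.head.asIdeal := (p.head.2.mem_or_mem hzero2).resolve_right h4
      refine two_le s 0 (X 2) h0 h2 ?_
      rw [sb_ne (by decide)]
      exact X_ne 2
  rw [← hs]
  exact_mod_cast hlen

end Pool.Agent.Lib.MP_799861_al
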