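import Mathlib

set_option autoImplicit false

open CategoryTheory

namespace Pool.Agent.Lib.MP_799861_al

/-- the bounded projective resolution asked for in the frozen statement -/
def HasRes (R : Type) [CommRing R] (N : Type) [AddCommGroup N] [Module R N] : Prop :=
  ∃ (P : ℕ → ModuleCat.{0} R) (d : ∀ i : ℕ, (P (i + 1)) →ₗ[R] (P i))
    (ε : (P 0) →ₗ[R] N),
    (∀ i, Module.Projective R (P i)) ∧ Function.Surjective ε ∧
    LinearMap.range (d 0) = LinearMap.ker ε ∧
    (∀ i, LinearMap.range (d (i + 1)) = LinearMap.ker (d i)) ∧
    ∃ n : ℕ, ∀ i, n ≤ i → Subsingleton (P i)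

theorem hasRes_of_projective (R : Type) [CommRing R] (N : Type) [AddCommGroup N] [Module R N]
    [Module.Projective R N] : HasRes R N := by
  refine ⟨fun i => match i with
    | 0 => ModuleCat.of R N
    | _ + 1 => ModuleCat.of R PUnit, fun _ => 0, LinearMap.id, ?_, ?_, ?_, ?_, 1, ?_⟩
  · intro i
    match i with
    | 0 => exact (inferInstance : Module.Projective R N)
    | _ + 1 => exact (inferInstance : Module.Projective R PUnit)
  · exact fun x => ⟨x, rfl⟩
  · rw [LinearMap.range_zero]
    symm
    exact LinearMap.ker_id
  · intro i
    rw [LinearMap.range_zero, LinearMap.ker_zero]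
    have : Subsingleton (PUnit : Type) := inferInstance
    apply SetLike.ext
    intro x
    constructor
    · intro _
      trivial
    · intro _
      exact (Submodule.mem_bot R).mpr (Subsingleton.elim (α := PUnit) x 0)
  · intro i hi
    match i, hi with
    | _ + 1, _ => exact (inferInstance : Subsingleton PUnit)

theorem hasRes_of_ker {R : Type} [CommRing R] {N F : Type} [AddCommGroup N] [Module R N]
    [AddCommGroup F] [Module R F] [Module.Projective R F] (f : F →ₗ[R] N)
    (hf : Function.Surjective f) (h : HasRes R (LinearMap.ker f)) : HasRes R N := by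
  obtain ⟨P, d, ε, hP, hε, h0, hd, n, hn⟩ := h
  refine ⟨fun i => match i with
    | 0 => ModuleCat.of R F
    | i + 1 => P i, fun i => match i with
    | 0 => (LinearMap.ker f).subtype ∘ₗ ε
    | i + 1 => d i, f, ?_, hf, ?_, ?_, n + 1, ?_⟩
  · intro i
    match i with
    | 0 => exact (inferInstance : Module.Projective R F)
    | i + 1 => exact hP i
  · show LinearMap.range ((LinearMap.ker f).subtype ∘ₗ ε) = LinearMap.ker f
    rw [LinearMap.range_comp, LinearMap.range_eq_top.mpr hε, Submodule.map_top,
      Submodule.range_subtype]
  · intro i
    match i with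
    | 0 =>
      show LinearMap.range (d 0) = LinearMap.ker ((LinearMap.ker f).subtype ∘ₗ ε)
      rw [h0, LinearMap.ker_comp, Submodule.ker_subtype, Submodule.comap_bot]
    | i + 1 => exact hd i
  · intro i hi
    match i, hi with
    | i + 1, hi => exact hn i (by omega)

/-- A module of finite projective dimension has a bounded projective resolution. -/
theorem hasRes_of_pd {R : Type} [CommRing R] (n : ℕ) : ∀ (N : Type) [AddCommGroup N] [Module R N],
    HasProjectiveDimensionLT (ModuleCat.of R N) (n + 1) → HasRes R N := by
  induction n with
  | zero =>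
    intro N _ _ h
    have h1 : Projective (ModuleCat.of R N) := projective_iff_hasProjectiveDimensionLT_one.mpr h
    have h2 : Module.Projective R N := (IsProjective.iff_projective N).mpr h1
    exact hasRes_of_projective R N
  | succ n ih =>
    intro N _ _ h
    let f : (N →₀ R) →ₗ[R] N := Finsupp.linearCombination R id
    have hf : Function.Surjective f := Finsupp.linearCombination_id_surjective R N
    have hS := LinearMap.shortExact_shortComplexKer hf
    have hp : Projective f.shortComplexKer.X₂ :=
      (IsProjective.iff_projective (R := R) (N →₀ R)).mp inferInstance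
    have hK : HasProjectiveDimensionLT f.shortComplexKer.X₁ (n + 1) :=
      (hS.hasProjectiveDimensionLT_X₃_iff n hp).mp h
    exact hasRes_of_ker f hf (ih _ hK)

end Pool.Agent.Lib.MP_799861_al
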