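import Pool.Agent.Lib.MP_799861_al.Loc
import Pool.Agent.Lib.MP_799861_al.Res

set_option autoImplicit false

open IsLocalRing CategoryTheory

namespace Pool.Agent.Lib.MP_799861_al

theorem pd_localized {A : Type} [CommRing A] (S : Submonoid A) (N : Type) [AddCommGroup N]
    [Module A N] (n : ℕ) (h : HasProjectiveDimensionLT (ModuleCat.of A N) (n + 1)) :
    HasProjectiveDimensionLT (ModuleCat.of (Localization S) (LocalizedModule S N)) (n + 1) := by
  have h1 : HasProjectiveDimensionLE ((ModuleCat.of A N).localizedModule S) n :=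
    ModuleCat.localizedModule_hasProjectiveDimensionLE n S (ModuleCat.of A N)
  have e : Shrink.{0} (LocalizedModule S N) ≃ₗ[Localization S] LocalizedModule S N :=
    Shrink.linearEquiv (Localization S) (LocalizedModule S N)
  exact hasProjectiveDimensionLT_of_iso (X := (ModuleCat.of A N).localizedModule S)
    (LinearEquiv.toModuleIso e) (n + 1)

theorem glue {A : Type} [CommRing A] [IsNoetherianRing A] (m q : Ideal A) [hm : m.IsPrime]
    [hq : q.IsPrime] (hqm : q ≤ m) (z : A) (hzm : z ∈ m)
    (N : Type) [AddCommGroup N] [Module A N] [Module.Finite A N]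
    (hpd : HasProjectiveDimensionLT (ModuleCat.of A N) 4)
    (p : Fin 4 → PrimeSpectrum A) (hp : StrictMono p) (hle : (p 3).asIdeal ≤ m)
    (hz : z ∈ (p 0).asIdeal)
    (gens : Set A) (hgen : m = Ideal.span gens)
    (hnil : ∀ g ∈ gens, ∃ k : ℕ, ∀ n : N, ∃ n' : N, g ^ k • n = z • n')
    (n0 : N) (hn0 : ∀ a : A, a • n0 = 0 → a ∈ q)
    (a b : A) (ha : a ∈ q) (hb : b ∈ q)
    (hmin : ∀ P : Ideal A, P.IsPrime → a ∈ P → b ∈ P → P ≤ q → q ≤ P) :
    ∃ (R : Type) (_ : CommRing R) (_ : IsNoetherianRing R) (_ : IsLocalRing R)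
      (M N : Type) (_ : AddCommGroup M) (_ : Module R M) (_ : AddCommGroup N) (_ : Module R N),
      Module.Finite R M ∧ Module.Finite R N ∧ Nontrivial M ∧ Nontrivial N ∧ HasRes R N ∧
      IsFiniteLength R (TensorProduct R M N) ∧
      ¬ ∃ rs : List R, (∀ r ∈ rs, r ∈ Module.annihilator R N) ∧
        RingTheory.Sequence.IsRegular R rs ∧
        ringKrullDim (R ⧸ Module.annihilator R M) ≤ (((rs.length : ℕ∞)) : WithBot ℕ∞) := by
  have hnoeth : IsNoetherianRing (Localization.AtPrime m) :=
    IsLocalization.isNoetherianRing m.primeCompl (Localization.AtPrime m) inferInstance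
  have hdisj : Disjoint (m.primeCompl : Set A) q := by
    rw [Set.disjoint_left]
    intro t ht htq
    exact ht (hqm htq)
  have hQ : (q.map (algebraMap A (Localization.AtPrime m))).IsPrime :=
    IsLocalization.isPrime_of_isPrime_disjoint m.primeCompl (Localization.AtPrime m) q hq hdisj
  have hQq : (q.map (algebraMap A (Localization.AtPrime m))).under A = q :=
    IsLocalization.under_map_of_isPrime_disjoint m.primeCompl (Localization.AtPrime m) hq hdisj
  have hann := ann_le m q hqm N n0 hn0
  have hfin : Module.Finite (Localization.AtPrime m) (LocalizedModule m.primeCompl N) :=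
    Module.Finite.of_isLocalizedModule m.primeCompl (LocalizedModule.mkLinearMap m.primeCompl N)
  have hzmax : algebraMap A (Localization.AtPrime m) z ∈ maximalIdeal (Localization.AtPrime m) :=
    (IsLocalization.AtPrime.to_map_mem_maximal_iff (Localization.AtPrime m) m z).mpr hzm
  have hne : Ideal.span {algebraMap A (Localization.AtPrime m) z} ≠ ⊤ := by
    intro h
    have h1 : (1 : Localization.AtPrime m) ∈ maximalIdeal (Localization.AtPrime m) :=
      (Ideal.span_singleton_le_iff_mem _).mpr hzmax (h ▸ Submodule.mem_top)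
    exact (Ideal.ne_top_iff_one _).mp (maximalIdeal.isMaximal _).ne_top h1
  refine ⟨Localization.AtPrime m, inferInstance, hnoeth, inferInstance,
    Localization.AtPrime m ⧸ Ideal.span {algebraMap A (Localization.AtPrime m) z},
    LocalizedModule m.primeCompl N, inferInstance, inferInstance, inferInstance, inferInstance,
    inferInstance, hfin, ?_, ?_, ?_, ?_, ?_⟩
  · exact Ideal.Quotient.nontrivial_iff.mpr hne
  · by_contra hcon
    rw [not_nontrivial_iff_subsingleton] at hcon
    have h1 : (1 : Localization.AtPrime m) ∈ Module.annihilator (Localization.AtPrime m)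
        (LocalizedModule m.primeCompl N) := by
      rw [Module.mem_annihilator]
      intro t
      exact Subsingleton.elim _ _
    exact (Ideal.ne_top_iff_one _).mp hQ.ne_top (hann 1 h1)
  · exact hasRes_of_pd 3 _ (pd_localized m.primeCompl N 3 hpd)
  · refine isFiniteLength_of_radical _ ?_
    rw [← Localization.AtPrime.map_eq_maximalIdeal, Ideal.map_le_iff_le_comap]
    refine hgen.le.trans (Ideal.span_le.mpr ?_)
    intro g hg
    obtain ⟨k, hk⟩ := hnil g hg
    refine Ideal.mem_comap.mpr ⟨k, ?_⟩
    rw [← map_pow]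
    exact mem_ann_tensor m z (g ^ k) N hk
  · rintro ⟨rs, hrs, hreg, hdim⟩
    rw [Ideal.annihilator_quotient] at hdim
    have h3 := three_le_dim m z p hp hle hz
    have h4 := length_le_height _ rs hreg.1 (fun r hr => hann r (hrs r hr))
    have h5 : (q.map (algebraMap A (Localization.AtPrime m))).height = q.height := by
      rw [← IsLocalization.height_under m.primeCompl
        (q.map (algebraMap A (Localization.AtPrime m))), hQq]
    have h6 := height_le_two q a b ha hb hmin
    rw [← h5] at h6
    have h7 : (rs.length : ℕ∞) ≤ 2 := h4.trans h6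
    have h8 : (3 : WithBot ℕ∞) ≤ ((rs.length : ℕ∞) : WithBot ℕ∞) := h3.trans hdim
    have h9 : (3 : ℕ∞) ≤ (rs.length : ℕ∞) := WithBot.coe_le_coe.mp h8
    have h10 : (3 : ℕ∞) ≤ 2 := h9.trans h7
    exact absurd h10 (by decide)

end Pool.Agent.Lib.MP_799861_al
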