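import Pool.Agent.Lib.MP_799861_al.Facts
import Pool.Agent.Lib.MP_799861_al.Chain2
import Pool.Agent.Lib.MP_799861_al.Glue

set_option autoImplicit false

open MvPolynomial

namespace Pool.Agent.Lib.MP_799861_al

/-- ring homomorphisms out of `A`. -/
noncomputable def lft {T : Type} [CommRing T] (f : SS →+* T) (h1 : f (X 0) * f (X 4) = 0)
    (h2 : f (X 2) * f (X 4) = 0) (h3 : f (X 0) * f (X 1) = f (X 2) * f (X 3)) : AA →+* T :=
  Ideal.Quotient.lift II f (by
    intro a ha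
    obtain ⟨p, q, r, rfl⟩ := (mem_II a).mp ha
    simp only [map_add, map_mul, map_sub]
    linear_combination f p * h1 + f q * h2 + f r * h3)

/-- the class of a polynomial. -/
noncomputable abbrev mk : SS →+* AA := Ideal.Quotient.mk II

/-- `x ↦ z v, y ↦ y, u ↦ z y, v ↦ v, z ↦ 0`. -/
noncomputable def g0 : SS →+* SS :=
  (aeval (fun j : Fin 5 => if j = 0 then X 4 * X 3 else if j = 2 then X 4 * X 1 else
    if j = 4 then 0 else X j) : SS →ₐ[ℚ] SS).toRingHom

theorem g0_0 : g0 (X 0) = X 4 * X 3 := by simp [g0]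
theorem g0_1 : g0 (X 1) = X 1 := by simp [g0]
theorem g0_2 : g0 (X 2) = X 4 * X 1 := by simp [g0]
theorem g0_3 : g0 (X 3) = X 3 := by simp [g0]
theorem g0_4 : g0 (X 4) = 0 := by simp [g0]

/-- composition with a substitution -/
noncomputable def cmp (i : Fin 5) (g : SS →+* SS) : SS →+* SS := (sb i 0).toRingHom.comp g

theorem cmp_apply (i : Fin 5) (g : SS →+* SS) (a : SS) : cmp i g a = sb i 0 (g a) := rfl

noncomputable def f0 : AA →+* SS := lft g0 (by rw [g0_4, mul_zero]) (by rw [g0_4, mul_zero])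
  (by rw [g0_0, g0_1, g0_2, g0_3]; ring)

/-- composition on the level of `A` -/
noncomputable def cmpA (i : Fin 5) (g : AA →+* SS) : AA →+* SS := (sb i 0).toRingHom.comp g

theorem cmpA_apply (i : Fin 5) (g : AA →+* SS) (a : AA) : cmpA i g a = sb i 0 (g a) := rfl

noncomputable def f1 : AA →+* SS := cmpA 4 f0
noncomputable def f2 : AA →+* SS := cmpA 1 f1
noncomputable def f3 : AA →+* SS := cmpA 3 f2

theorem f0_mk (a : SS) : f0 (mk a) = g0 a := rfl

theorem f1_0 : f1 (mk (X 0)) = 0 := by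
  rw [f1, cmpA_apply, f0_mk, g0_0, map_mul, sb_same, zero_mul]
theorem f1_1 : f1 (mk (X 1)) = X 1 := by
  rw [f1, cmpA_apply, f0_mk, g0_1, sb_ne (by decide)]
theorem f1_2 : f1 (mk (X 2)) = 0 := by
  rw [f1, cmpA_apply, f0_mk, g0_2, map_mul, sb_same, zero_mul]
theorem f1_3 : f1 (mk (X 3)) = X 3 := by
  rw [f1, cmpA_apply, f0_mk, g0_3, sb_ne (by decide)]
theorem f1_4 : f1 (mk (X 4)) = 0 := by
  rw [f1, cmpA_apply, f0_mk, g0_4, map_zero]
theorem f2_0 : f2 (mk (X 0)) = 0 := by rw [f2, cmpA_apply, f1_0, map_zero]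
theorem f2_1 : f2 (mk (X 1)) = 0 := by rw [f2, cmpA_apply, f1_1, sb_same]
theorem f2_2 : f2 (mk (X 2)) = 0 := by rw [f2, cmpA_apply, f1_2, map_zero]
theorem f2_3 : f2 (mk (X 3)) = X 3 := by rw [f2, cmpA_apply, f1_3, sb_ne (by decide)]
theorem f2_4 : f2 (mk (X 4)) = 0 := by rw [f2, cmpA_apply, f1_4, map_zero]
theorem f3_0 : f3 (mk (X 0)) = 0 := by rw [f3, cmpA_apply, f2_0, map_zero]
theorem f3_1 : f3 (mk (X 1)) = 0 := by rw [f3, cmpA_apply, f2_1, map_zero]
theorem f3_2 : f3 (mk (X 2)) = 0 := by rw [f3, cmpA_apply, f2_2, map_zero]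
theorem f3_3 : f3 (mk (X 3)) = 0 := by rw [f3, cmpA_apply, f2_3, sb_same]
theorem f3_4 : f3 (mk (X 4)) = 0 := by rw [f3, cmpA_apply, f2_4, map_zero]

/-- the chain of primes -/
noncomputable def pr : Fin 4 → PrimeSpectrum AA :=
  ![⟨RingHom.ker f0, RingHom.ker_isPrime f0⟩, ⟨RingHom.ker f1, RingHom.ker_isPrime f1⟩,
    ⟨RingHom.ker f2, RingHom.ker_isPrime f2⟩, ⟨RingHom.ker f3, RingHom.ker_isPrime f3⟩]

theorem ker_lt (i : Fin 5) (g : AA →+* SS) (a : AA) (h1 : cmpA i g a = 0) (h2 : g a ≠ 0) :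
    RingHom.ker g < RingHom.ker (cmpA i g) := by
  refine lt_of_le_of_ne ?_ ?_
  · intro b hb
    rw [RingHom.mem_ker] at hb ⊢
    rw [cmpA_apply, hb, map_zero]
  · intro h
    apply h2
    rw [← RingHom.mem_ker, h, RingHom.mem_ker, h1]

theorem pr_strictMono : StrictMono pr := by
  rw [Fin.strictMono_iff_lt_succ]
  intro i
  fin_cases i
  · show RingHom.ker f0 < RingHom.ker f1
    exact ker_lt 4 f0 (mk (X 0)) f1_0 (by
      rw [f0_mk, g0_0]
      exact mul_ne_zero (X_ne 4) (X_ne 3))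
  · show RingHom.ker f1 < RingHom.ker f2
    exact ker_lt 1 f1 (mk (X 1)) f2_1 (by rw [f1_1]; exact X_ne 1)
  · show RingHom.ker f2 < RingHom.ker f3
    exact ker_lt 3 f2 (mk (X 3)) f3_3 (by rw [f2_3]; exact X_ne 3)

/-- the maximal ideal `(x, y, u, v, z)` -/
noncomputable def mm : Ideal AA := RingHom.ker f3

instance : mm.IsPrime := RingHom.ker_isPrime f3

/-- `x, y, u, v ↦ 0`. -/
noncomputable def gq : SS →+* SS :=
  (aeval (fun j : Fin 5 => if j = 4 then X 4 else 0) : SS →ₐ[ℚ] SS).toRingHom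

theorem gq_0 : gq (X 0) = 0 := by simp [gq]
theorem gq_1 : gq (X 1) = 0 := by simp [gq]
theorem gq_2 : gq (X 2) = 0 := by simp [gq]
theorem gq_3 : gq (X 3) = 0 := by simp [gq]
theorem gq_4 : gq (X 4) = X 4 := by simp [gq]

theorem gq_spec (a : SS) : ∃ c0 c1 c2 c3, a = gq a + X 0 * c0 + X 1 * c1 + X 2 * c2 + X 3 * c3 := by
  induction a using MvPolynomial.induction_on with
  | C r => exact ⟨0, 0, 0, 0, by simp [gq]⟩
  | add a b ha hb =>
    obtain ⟨a0, a1, a2, a3, ha⟩ := ha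
    obtain ⟨b0, b1, b2, b3, hb⟩ := hb
    exact ⟨a0 + b0, a1 + b1, a2 + b2, a3 + b3, by rw [map_add]; linear_combination ha + hb⟩
  | mul_X a j ha =>
    obtain ⟨a0, a1, a2, a3, ha⟩ := ha
    rw [map_mul]
    fin_cases j
    · exact ⟨a, 0, 0, 0, by simp only [Fin.zero_eta, gq_0]; ring⟩
    · exact ⟨0, a, 0, 0, by simp only [Fin.mk_one, gq_1]; ring⟩
    · exact ⟨0, 0, a, 0, by simp only [Fin.reduceFinMk, gq_2]; ring⟩
    · exact ⟨0, 0, 0, a, by simp only [Fin.reduceFinMk, gq_3]; ring⟩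
    · exact ⟨a0 * X 4, a1 * X 4, a2 * X 4, a3 * X 4, by
        simp only [Fin.reduceFinMk, gq_4]; linear_combination (X 4) * ha⟩

noncomputable def fq : AA →+* SS := lft gq (by rw [gq_0, zero_mul]) (by rw [gq_2, zero_mul])
  (by rw [gq_0, gq_2, zero_mul, zero_mul])

theorem fq_mk (a : SS) : fq (mk a) = gq a := rfl

/-- the prime `(x, y, u, v)` -/
noncomputable def qq : Ideal AA := RingHom.ker fq

instance : qq.IsPrime := RingHom.ker_isPrime fq

theorem mem_qq {P : Ideal AA} (h0 : mk (X 0) ∈ P) (h1 : mk (X 1) ∈ P) (h2 : mk (X 2) ∈ P)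
    (h3 : mk (X 3) ∈ P) : qq ≤ P := by
  intro a ha
  obtain ⟨a, rfl⟩ := Ideal.Quotient.mk_surjective a
  have h : gq a = 0 := ha
  obtain ⟨c0, c1, c2, c3, hc⟩ := gq_spec a
  rw [h] at hc
  have h5 : mk a = mk (X 0) * mk c0 + mk (X 1) * mk c1 + mk (X 2) * mk c2 + mk (X 3) * mk c3 := by
    rw [← map_mul, ← map_mul, ← map_mul, ← map_mul, ← map_add, ← map_add, ← map_add]
    congr 1
    linear_combination hc
  show mk a ∈ P
  rw [h5]
  exact add_mem (add_mem (add_mem (P.mul_mem_right _ h0) (P.mul_mem_right _ h1))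
    (P.mul_mem_right _ h2)) (P.mul_mem_right _ h3)

theorem qq_le : qq ≤ mm := mem_qq f3_0 f3_1 f3_2 f3_3

theorem X4_not_mem : mk (X 4) ∉ qq := by
  intro h
  have h1 : gq (X 4) = 0 := h
  rw [gq_4] at h1
  exact X_ne 4 h1

theorem qq_min (P : Ideal AA) (hP : P.IsPrime) (h1 : mk (X 1) ∈ P) (h3 : mk (X 3) ∈ P)
    (hle : P ≤ qq) : qq ≤ P := by
  have h4 : mk (X 4) ∉ P := fun h => X4_not_mem (hle h)
  have h0 : mk (X 0) ∈ P := by
    refine (hP.mem_or_mem (x := mk (X 0)) (y := mk (X 4)) ?_).resolve_right h4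
    rw [facts_AA.xz]
    exact P.zero_mem
  have h2 : mk (X 2) ∈ P := by
    refine (hP.mem_or_mem (x := mk (X 2)) (y := mk (X 4)) ?_).resolve_right h4
    rw [facts_AA.uz]
    exact P.zero_mem
  exact mem_qq h0 h1 h2 h3

theorem mm_eq : mm = Ideal.span {mk (X 0), mk (X 1), mk (X 2), mk (X 3), mk (X 4)} := by
  apply le_antisymm
  · intro a ha
    obtain ⟨a, rfl⟩ := Ideal.Quotient.mk_surjective a
    obtain ⟨c0, c1, c2, c3, hc⟩ := gq_spec a
    -- `gq a` is a polynomial in `X 4`; subtract its value at zero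
    obtain ⟨c4, h4⟩ := sb_spec 4 0 (gq a)
    have hf : f3 (mk a) = 0 := ha
    have hcomp : f3 (mk a) = sb 4 0 (gq a) := by
      have h5 : (f3.comp mk : SS →+* SS) = (sb 4 0).toRingHom.comp gq := by
        refine MvPolynomial.ringHom_ext ?_ ?_
        · intro r
          simp [f3, f2, f1, cmpA_apply, f0_mk, g0, gq, sb]
        · intro j
          show f3 (mk (X j)) = sb 4 0 (gq (X j))
          fin_cases j
          · show f3 (mk (X 0)) = sb 4 0 (gq (X 0))
            rw [f3_0, gq_0, map_zero]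
          · show f3 (mk (X 1)) = sb 4 0 (gq (X 1))
            rw [f3_1, gq_1, map_zero]
          · show f3 (mk (X 2)) = sb 4 0 (gq (X 2))
            rw [f3_2, gq_2, map_zero]
          · show f3 (mk (X 3)) = sb 4 0 (gq (X 3))
            rw [f3_3, gq_3, map_zero]
          · show f3 (mk (X 4)) = sb 4 0 (gq (X 4))
            rw [f3_4, gq_4, sb_same]
      exact RingHom.congr_fun h5 a
    rw [← hcomp, hf] at h4
    have h6 : mk a = mk (X 0) * mk c0 + mk (X 1) * mk c1 + mk (X 2) * mk c2 + mk (X 3) * mk c3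
        + mk (X 4) * mk c4 := by
      rw [← map_mul, ← map_mul, ← map_mul, ← map_mul, ← map_mul, ← map_add, ← map_add, ← map_add,
        ← map_add]
      congr 1
      linear_combination hc + h4
    show mk a ∈ _
    rw [h6]
    refine add_mem (add_mem (add_mem (add_mem ?_ ?_) ?_) ?_) ?_ <;>
      exact Ideal.mul_mem_right _ _ (Ideal.subset_span (by simp))
  · rw [Ideal.span_le]
    intro t ht
    simp only [Set.mem_insert_iff, Set.mem_singleton_iff] at ht
    rcases ht with rfl | rfl | rfl | rfl | rfl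
    · exact f3_0
    · exact f3_1
    · exact f3_2
    · exact f3_3
    · exact f3_4

instance : IsNoetherianRing AA := inferInstance

theorem example_exists :
    ∃ (R : Type) (_ : CommRing R) (_ : IsNoetherianRing R) (_ : IsLocalRing R)
      (M N : Type) (_ : AddCommGroup M) (_ : Module R M) (_ : AddCommGroup N) (_ : Module R N),
      Module.Finite R M ∧ Module.Finite R N ∧ Nontrivial M ∧ Nontrivial N ∧ HasRes R N ∧
      IsFiniteLength R (TensorProduct R M N) ∧
      ¬ ∃ rs : List R, (∀ r ∈ rs, r ∈ Module.annihilator R N) ∧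
        RingTheory.Sequence.IsRegular R rs ∧
        ringKrullDim (R ⧸ Module.annihilator R M) ≤ (((rs.length : ℕ∞)) : WithBot ℕ∞) := by
  refine glue mm qq qq_le (mk (X 4)) f3_4 (NN facts_AA) (pd_NN facts_AA) pr pr_strictMono
    le_rfl ?_ {mk (X 0), mk (X 1), mk (X 2), mk (X 3), mk (X 4)} mm_eq ?_
    (piN facts_AA (pi1 _ _ _ _ _ 1, pi2 _ _ _ _ 0)) ?_ (mk (X 1)) (mk (X 3)) gq_1 gq_3 qq_min
  · exact g0_4
  · intro g hg
    simp only [Set.mem_insert_iff, Set.mem_singleton_iff] at hg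
    rcases hg with rfl | rfl | rfl | rfl | rfl
    · exact ⟨3, nil_x facts_AA⟩
    · exact ⟨3, nil_y facts_AA⟩
    · exact ⟨3, nil_u facts_AA⟩
    · exact ⟨3, nil_v facts_AA⟩
    · exact ⟨1, fun n => ⟨n, by rw [pow_one]⟩⟩
  · intro a ha
    obtain ⟨w, s, t, h⟩ := n0_spec facts_AA a ha
    show fq a = 0
    obtain ⟨w3, w1, w2⟩ := w
    rw [h, m1_apply]
    have e0 : fq (mk (X 0)) = 0 := gq_0
    have e1 : fq (mk (X 1)) = 0 := gq_1
    have e2 : fq (mk (X 2)) = 0 := gq_2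
    have e3 : fq (mk (X 3)) = 0 := gq_3
    simp only [map_add, map_mul, map_sub, map_pow]
    rw [e0, e1, e2, e3]
    ring

end Pool.Agent.Lib.MP_799861_al
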