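import Pool.Agent.Lib.MP_799861_al.FactsS
import Pool.Agent.Lib.MP_799861_al.Chain

set_option autoImplicit false
set_option linter.unusedSimpArgs false

open MvPolynomial

namespace Pool.Agent.Lib.MP_799861_al

theorem facts_of {A : Type} [CommRing A] (π : SS →+* A) (hs : Function.Surjective π)
    (hk : ∀ a, π a = 0 ↔ ∃ p q r, a = X 0 * X 4 * p + X 2 * X 4 * q +
      (X 0 * X 1 - X 2 * X 3) * r) :
    Facts (π (X 0)) (π (X 1)) (π (X 2)) (π (X 3)) (π (X 4)) := by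
  have hxz : π (X 0) * π (X 4) = 0 := by
    rw [← map_mul, hk]
    exact ⟨1, 0, 0, by ring⟩
  have huz : π (X 2) * π (X 4) = 0 := by
    rw [← map_mul, hk]
    exact ⟨0, 1, 0, by ring⟩
  have hq : π (X 0) * π (X 1) = π (X 2) * π (X 3) := by
    rw [← sub_eq_zero, ← map_mul, ← map_mul, ← map_sub, hk]
    exact ⟨0, 0, 1, by ring⟩
  have f_P0 : ∀ a : A, π (X 4) * a = 0 → ∃ b c, a = π (X 0) * b + π (X 2) * c := by
    intro a h
    obtain ⟨a, rfl⟩ := hs a
    have h0 : π (X 4 * a - (0)) = 0 := by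
      simp only [map_mul, map_add, map_sub, map_pow, map_neg, map_zero]
      linear_combination h
    obtain ⟨p, q, r, h1⟩ := (hk _).mp h0
    obtain ⟨b, c, h2⟩ := P0S (a) (X 4 * p + X 1 * r) (X 4 * q - X 3 * r) (by linear_combination h1)
    refine ⟨π (b), π (c), ?_⟩
    rw [h2]
    simp only [map_mul, map_add, map_sub, map_pow, map_neg, map_zero] <;> ring
  have f_L11 : ∀ a b : A, π (X 0) * a = π (X 4) * b → ∃ c, a = π (X 4) * c := by
    intro a b h
    obtain ⟨a, rfl⟩ := hs a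
    obtain ⟨b, rfl⟩ := hs b
    have h0 : π (X 0 * a - (X 4 * b)) = 0 := by
      simp only [map_mul, map_add, map_sub, map_pow, map_neg, map_zero]
      linear_combination h
    obtain ⟨p, q, r, h1⟩ := (hk _).mp h0
    obtain ⟨c, d, h2⟩ := L11S (a) (b + X 0 * p + X 2 * q) (r) (by linear_combination h1)
    refine ⟨π (c), ?_⟩
    rw [h2]
    simp only [map_mul, map_add, map_sub, map_pow, map_neg, map_zero]
    linear_combination π d * hq
  have f_L13 : ∀ a b : A, π (X 1) * a = π (X 4) * b → ∃ c, a = π (X 4) * c := by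
    intro a b h
    obtain ⟨a, rfl⟩ := hs a
    obtain ⟨b, rfl⟩ := hs b
    have h0 : π (X 1 * a - (X 4 * b)) = 0 := by
      simp only [map_mul, map_add, map_sub, map_pow, map_neg, map_zero]
      linear_combination h
    obtain ⟨p, q, r, h1⟩ := (hk _).mp h0
    obtain ⟨c, d, h2⟩ := L13S (a) (b + X 0 * p + X 2 * q) (r) (by linear_combination h1)
    refine ⟨π (c), ?_⟩
    rw [h2]
    simp only [map_mul, map_add, map_sub, map_pow, map_neg, map_zero]
    linear_combination π d * hq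
  have f_L15 : ∀ a b : A, π (X 2) * a = π (X 4) * b → ∃ c, a = π (X 4) * c := by
    intro a b h
    obtain ⟨a, rfl⟩ := hs a
    obtain ⟨b, rfl⟩ := hs b
    have h0 : π (X 2 * a - (X 4 * b)) = 0 := by
      simp only [map_mul, map_add, map_sub, map_pow, map_neg, map_zero]
      linear_combination h
    obtain ⟨p, q, r, h1⟩ := (hk _).mp h0
    obtain ⟨c, d, h2⟩ := L15S (a) (b + X 0 * p + X 2 * q) (r) (by linear_combination h1)
    refine ⟨π (c), ?_⟩
    rw [h2]
    simp only [map_mul, map_add, map_sub, map_pow, map_neg, map_zero]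
    linear_combination π d * hq
  have f_L12 : ∀ a b c : A, (π (X 3) + π (X 2) ^ 2) * a = π (X 4) * b + π (X 0) * c → ∃ b' c', a = π (X 4) * b' + π (X 0) * c' := by
    intro a b c h
    obtain ⟨a, rfl⟩ := hs a
    obtain ⟨b, rfl⟩ := hs b
    obtain ⟨c, rfl⟩ := hs c
    have h0 : π ((X 3 + X 2 ^ 2) * a - (X 4 * b + X 0 * c)) = 0 := by
      simp only [map_mul, map_add, map_sub, map_pow, map_neg, map_zero]
      linear_combination h
    obtain ⟨p, q, r, h1⟩ := (hk _).mp h0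
    obtain ⟨b1, c1, r1, h2⟩ := L12S (a) (b + X 0 * p + X 2 * q) (c + X 1 * r) (-r) (by linear_combination h1)
    refine ⟨π (b1), π (c1 + X 1 * r1), ?_⟩
    rw [h2]
    simp only [map_mul, map_add, map_sub, map_pow, map_neg, map_zero]
    linear_combination -(π r1) * hq
  have f_L14 : ∀ a b c : A, (π (X 2) + π (X 3) ^ 2) * a = π (X 4) * b + π (X 1) * c → ∃ b' c', a = π (X 4) * b' + π (X 1) * c' := by
    intro a b c h
    obtain ⟨a, rfl⟩ := hs a
    obtain ⟨b, rfl⟩ := hs b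
    obtain ⟨c, rfl⟩ := hs c
    have h0 : π ((X 2 + X 3 ^ 2) * a - (X 4 * b + X 1 * c)) = 0 := by
      simp only [map_mul, map_add, map_sub, map_pow, map_neg, map_zero]
      linear_combination h
    obtain ⟨p, q, r, h1⟩ := (hk _).mp h0
    obtain ⟨b1, c1, r1, h2⟩ := L14S (a) (b + X 0 * p + X 2 * q) (c + X 0 * r) (-r) (by linear_combination h1)
    refine ⟨π (b1), π (c1 + X 0 * r1), ?_⟩
    rw [h2]
    simp only [map_mul, map_add, map_sub, map_pow, map_neg, map_zero]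
    linear_combination -(π r1) * hq
  have f_L16 : ∀ a b c : A, π (X 3) * a = π (X 4) * b + π (X 2) * c → ∃ b' c', a = π (X 4) * b' + π (X 2) * c' := by
    intro a b c h
    obtain ⟨a, rfl⟩ := hs a
    obtain ⟨b, rfl⟩ := hs b
    obtain ⟨c, rfl⟩ := hs c
    have h0 : π (X 3 * a - (X 4 * b + X 2 * c)) = 0 := by
      simp only [map_mul, map_add, map_sub, map_pow, map_neg, map_zero]
      linear_combination h
    obtain ⟨p, q, r, h1⟩ := (hk _).mp h0
    obtain ⟨b1, c1, r1, h2⟩ := L16S (a) (b + X 0 * p + X 2 * q) (c - X 3 * r) (r) (by linear_combination h1)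
    refine ⟨π (b1), π (c1 + X 3 * r1), ?_⟩
    rw [h2]
    simp only [map_mul, map_add, map_sub, map_pow, map_neg, map_zero]
    linear_combination (π r1) * hq
  have f_M : ∀ a b c d e b' c' d' e' : A, a = π (X 0) * b + π (X 2) * c + π (X 3) * d + π (X 4) * e →
      a = π (X 1) * b' + π (X 2) * c' + π (X 3) * d' + π (X 4) * e' → ∃ c d e, a = π (X 2) * c + π (X 3) * d + π (X 4) * e := by
    intro a b c d e b' c' d' e' h h'
    obtain ⟨a, rfl⟩ := hs a
    obtain ⟨b, rfl⟩ := hs b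
    obtain ⟨c, rfl⟩ := hs c
    obtain ⟨d, rfl⟩ := hs d
    obtain ⟨e, rfl⟩ := hs e
    obtain ⟨b', rfl⟩ := hs b'
    obtain ⟨c', rfl⟩ := hs c'
    obtain ⟨d', rfl⟩ := hs d'
    obtain ⟨e', rfl⟩ := hs e'
    have h0 : π (a - (X 0 * b + X 2 * c + X 3 * d + X 4 * e)) = 0 := by
      simp only [map_mul, map_add, map_sub, map_pow, map_neg, map_zero]
      linear_combination h
    have h0' : π (a - (X 1 * b' + X 2 * c' + X 3 * d' + X 4 * e')) = 0 := by
      simp only [map_mul, map_add, map_sub, map_pow, map_neg, map_zero]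
      linear_combination h'
    obtain ⟨p, q, r, h1⟩ := (hk _).mp h0
    obtain ⟨p', q', r', h1'⟩ := (hk _).mp h0'
    obtain ⟨s, c1, d1, e1, h2⟩ := MS a (b + X 4 * p + X 1 * r) (c + X 4 * q - X 3 * r) d e
      (b' + X 0 * r') (c' + X 4 * q' - X 3 * r') d' (e' + X 0 * p')
      (by linear_combination h1) (by linear_combination h1')
    refine ⟨π (c1 + X 3 * s), π d1, π e1, ?_⟩
    rw [h2]
    simp only [map_mul, map_add, map_sub, map_pow, map_neg, map_zero]
    linear_combination (π s) * hq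
  have f_S1 : ∀ w3 w1 w2 a b c : A, w3 * π (X 1) ^ 2 + w1 * (π (X 2) * π (X 1)) + w2 * π (X 2) ^ 2 = π (X 4) * a + π (X 0) * b + (π (X 3) + π (X 2) ^ 2) * c → ∃ b c d e, w3 = π (X 0) * b + π (X 2) * c + π (X 3) * d + π (X 4) * e := by
    intro w3 w1 w2 a b c h
    obtain ⟨w3, rfl⟩ := hs w3
    obtain ⟨w1, rfl⟩ := hs w1
    obtain ⟨w2, rfl⟩ := hs w2
    obtain ⟨a, rfl⟩ := hs a
    obtain ⟨b, rfl⟩ := hs b
    obtain ⟨c, rfl⟩ := hs c
    have h0 : π (w3 * X 1 ^ 2 + w1 * (X 2 * X 1) + w2 * X 2 ^ 2 - (X 4 * a + X 0 * b + (X 3 + X 2 ^ 2) * c)) = 0 := by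
      simp only [map_mul, map_add, map_sub, map_pow, map_neg, map_zero]
      linear_combination h
    obtain ⟨p, q, r, h1⟩ := (hk _).mp h0
    obtain ⟨a1, b1, c1, d1, h2⟩ := S1S (w3) (w1) (w2) (a + X 0 * p + X 2 * q) (b + X 1 * r) (c) (-r) (by linear_combination h1)
    refine ⟨π (b1), π (c1), π (d1), π (a1), ?_⟩
    rw [h2]
    simp only [map_mul, map_add, map_sub, map_pow, map_neg, map_zero] <;> ring
  have f_T1 : ∀ w3 w1 w2 a b c : A, w3 * π (X 0) ^ 2 + w1 * (π (X 0) * π (X 3)) + w2 * π (X 3) ^ 2 = π (X 4) * a + π (X 1) * b + (π (X 2) + π (X 3) ^ 2) * c → ∃ b c d e, w3 = π (X 1) * b + π (X 2) * c + π (X 3) * d + π (X 4) * e := by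
    intro w3 w1 w2 a b c h
    obtain ⟨w3, rfl⟩ := hs w3
    obtain ⟨w1, rfl⟩ := hs w1
    obtain ⟨w2, rfl⟩ := hs w2
    obtain ⟨a, rfl⟩ := hs a
    obtain ⟨b, rfl⟩ := hs b
    obtain ⟨c, rfl⟩ := hs c
    have h0 : π (w3 * X 0 ^ 2 + w1 * (X 0 * X 3) + w2 * X 3 ^ 2 - (X 4 * a + X 1 * b + (X 2 + X 3 ^ 2) * c)) = 0 := by
      simp only [map_mul, map_add, map_sub, map_pow, map_neg, map_zero]
      linear_combination h
    obtain ⟨p, q, r, h1⟩ := (hk _).mp h0
    obtain ⟨a1, b1, c1, d1, h2⟩ := T1S (w3) (w1) (w2) (a + X 0 * p + X 2 * q) (b + X 0 * r) (c) (-r) (by linear_combination h1)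
    refine ⟨π (b1), π (d1), π (c1), π (a1), ?_⟩
    rw [h2]
    simp only [map_mul, map_add, map_sub, map_pow, map_neg, map_zero] <;> ring
  have f_S2 : ∀ w1 w2 a b c : A, w1 * (π (X 2) * π (X 1)) + w2 * π (X 2) ^ 2 = π (X 4) * a + π (X 0) * b + (π (X 3) + π (X 2) ^ 2) * c → ∃ b c d e, w1 = π (X 0) * b + π (X 2) * c + π (X 3) * d + π (X 4) * e := by
    intro w1 w2 a b c h
    obtain ⟨w1, rfl⟩ := hs w1
    obtain ⟨w2, rfl⟩ := hs w2
    obtain ⟨a, rfl⟩ := hs a
    obtain ⟨b, rfl⟩ := hs b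
    obtain ⟨c, rfl⟩ := hs c
    have h0 : π (w1 * (X 2 * X 1) + w2 * X 2 ^ 2 - (X 4 * a + X 0 * b + (X 3 + X 2 ^ 2) * c)) = 0 := by
      simp only [map_mul, map_add, map_sub, map_pow, map_neg, map_zero]
      linear_combination h
    obtain ⟨p, q, r, h1⟩ := (hk _).mp h0
    obtain ⟨a1, b1, c1, d1, h2⟩ := S2S (w1) (w2) (a + X 0 * p + X 2 * q) (b + X 1 * r) (c) (-r) (by linear_combination h1)
    refine ⟨π (b1), π (c1), π (d1), π (a1), ?_⟩
    rw [h2]
    simp only [map_mul, map_add, map_sub, map_pow, map_neg, map_zero] <;> ring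
  have f_T2 : ∀ w1 w2 a b c : A, w1 * (π (X 0) * π (X 3)) + w2 * π (X 3) ^ 2 = π (X 4) * a + π (X 1) * b + (π (X 2) + π (X 3) ^ 2) * c → ∃ b c d e, w1 = π (X 1) * b + π (X 2) * c + π (X 3) * d + π (X 4) * e := by
    intro w1 w2 a b c h
    obtain ⟨w1, rfl⟩ := hs w1
    obtain ⟨w2, rfl⟩ := hs w2
    obtain ⟨a, rfl⟩ := hs a
    obtain ⟨b, rfl⟩ := hs b
    obtain ⟨c, rfl⟩ := hs c
    have h0 : π (w1 * (X 0 * X 3) + w2 * X 3 ^ 2 - (X 4 * a + X 1 * b + (X 2 + X 3 ^ 2) * c)) = 0 := by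
      simp only [map_mul, map_add, map_sub, map_pow, map_neg, map_zero]
      linear_combination h
    obtain ⟨p, q, r, h1⟩ := (hk _).mp h0
    obtain ⟨a1, b1, c1, d1, h2⟩ := T2S (w1) (w2) (a + X 0 * p + X 2 * q) (b + X 0 * r) (c) (-r) (by linear_combination h1)
    refine ⟨π (b1), π (d1), π (c1), π (a1), ?_⟩
    rw [h2]
    simp only [map_mul, map_add, map_sub, map_pow, map_neg, map_zero] <;> ring
  have f_S3 : ∀ w2 a b c : A, w2 * π (X 2) ^ 2 = π (X 4) * a + π (X 0) * b + (π (X 3) + π (X 2) ^ 2) * c → ∃ b c d e, w2 = π (X 0) * b + π (X 2) * c + π (X 3) * d + π (X 4) * e := by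
    intro w2 a b c h
    obtain ⟨w2, rfl⟩ := hs w2
    obtain ⟨a, rfl⟩ := hs a
    obtain ⟨b, rfl⟩ := hs b
    obtain ⟨c, rfl⟩ := hs c
    have h0 : π (w2 * X 2 ^ 2 - (X 4 * a + X 0 * b + (X 3 + X 2 ^ 2) * c)) = 0 := by
      simp only [map_mul, map_add, map_sub, map_pow, map_neg, map_zero]
      linear_combination h
    obtain ⟨p, q, r, h1⟩ := (hk _).mp h0
    obtain ⟨a1, b1, c1, d1, h2⟩ := S3S (w2) (a + X 0 * p + X 2 * q) (b + X 1 * r) (c) (-r) (by linear_combination h1)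
    refine ⟨π (b1), π (c1), π (d1), π (a1), ?_⟩
    rw [h2]
    simp only [map_mul, map_add, map_sub, map_pow, map_neg, map_zero] <;> ring
  have f_T3 : ∀ w2 a b c : A, w2 * π (X 3) ^ 2 = π (X 4) * a + π (X 1) * b + (π (X 2) + π (X 3) ^ 2) * c → ∃ b c d e, w2 = π (X 1) * b + π (X 2) * c + π (X 3) * d + π (X 4) * e := by
    intro w2 a b c h
    obtain ⟨w2, rfl⟩ := hs w2
    obtain ⟨a, rfl⟩ := hs a
    obtain ⟨b, rfl⟩ := hs b
    obtain ⟨c, rfl⟩ := hs c
    have h0 : π (w2 * X 3 ^ 2 - (X 4 * a + X 1 * b + (X 2 + X 3 ^ 2) * c)) = 0 := by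
      simp only [map_mul, map_add, map_sub, map_pow, map_neg, map_zero]
      linear_combination h
    obtain ⟨p, q, r, h1⟩ := (hk _).mp h0
    obtain ⟨a1, b1, c1, d1, h2⟩ := T3S (w2) (a + X 0 * p + X 2 * q) (b + X 0 * r) (c) (-r) (by linear_combination h1)
    refine ⟨π (b1), π (d1), π (c1), π (a1), ?_⟩
    rw [h2]
    simp only [map_mul, map_add, map_sub, map_pow, map_neg, map_zero] <;> ring
  have f_L21 : ∀ a b c : A, π (X 4) * a = π (X 0) * b + π (X 2) * c → ∃ b' c', a = π (X 0) * b' + π (X 2) * c' := by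
    intro a b c h
    obtain ⟨a, rfl⟩ := hs a
    obtain ⟨b, rfl⟩ := hs b
    obtain ⟨c, rfl⟩ := hs c
    have h0 : π (X 4 * a - (X 0 * b + X 2 * c)) = 0 := by
      simp only [map_mul, map_add, map_sub, map_pow, map_neg, map_zero]
      linear_combination h
    obtain ⟨p, q, r, h1⟩ := (hk _).mp h0
    obtain ⟨b1, c1, h2⟩ := P0S (a) (b + X 4 * p + X 1 * r) (c + X 4 * q - X 3 * r) (by linear_combination h1)
    refine ⟨π (b1), π (c1), ?_⟩
    rw [h2]
    simp only [map_mul, map_add, map_sub, map_pow, map_neg, map_zero] <;> ring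
  have f_L21y : ∀ a b c : A, π (X 1) * a = π (X 0) * b + π (X 2) * c → ∃ b' c', a = π (X 0) * b' + π (X 2) * c' := by
    intro a b c h
    obtain ⟨a, rfl⟩ := hs a
    obtain ⟨b, rfl⟩ := hs b
    obtain ⟨c, rfl⟩ := hs c
    have h0 : π (X 1 * a - (X 0 * b + X 2 * c)) = 0 := by
      simp only [map_mul, map_add, map_sub, map_pow, map_neg, map_zero]
      linear_combination h
    obtain ⟨p, q, r, h1⟩ := (hk _).mp h0
    obtain ⟨b1, c1, h2⟩ := L21yS (a) (b + X 4 * p + X 1 * r) (c + X 4 * q - X 3 * r) (by linear_combination h1)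
    refine ⟨π (b1), π (c1), ?_⟩
    rw [h2]
    simp only [map_mul, map_add, map_sub, map_pow, map_neg, map_zero] <;> ring
  have f_L23 : ∀ a b c : A, (π (X 1) - π (X 4) ^ 2) * a = π (X 0) * b + π (X 2) * c → ∃ b' c', a = π (X 0) * b' + π (X 2) * c' := by
    intro a b c h
    obtain ⟨a, rfl⟩ := hs a
    obtain ⟨b, rfl⟩ := hs b
    obtain ⟨c, rfl⟩ := hs c
    have h0 : π ((X 1 - X 4 ^ 2) * a - (X 0 * b + X 2 * c)) = 0 := by
      simp only [map_mul, map_add, map_sub, map_pow, map_neg, map_zero]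
      linear_combination h
    obtain ⟨p, q, r, h1⟩ := (hk _).mp h0
    obtain ⟨b1, c1, h2⟩ := L23S (a) (b + X 4 * p + X 1 * r) (c + X 4 * q - X 3 * r) (by linear_combination h1)
    refine ⟨π (b1), π (c1), ?_⟩
    rw [h2]
    simp only [map_mul, map_add, map_sub, map_pow, map_neg, map_zero] <;> ring
  have f_L22 : ∀ a b c d : A, π (X 3) * a = π (X 0) * b + π (X 2) * c + π (X 4) * π (X 1) * d → ∃ b' c' d', a = π (X 0) * b' + π (X 2) * c' + π (X 4) * π (X 1) * d' := by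
    intro a b c d h
    obtain ⟨a, rfl⟩ := hs a
    obtain ⟨b, rfl⟩ := hs b
    obtain ⟨c, rfl⟩ := hs c
    obtain ⟨d, rfl⟩ := hs d
    have h0 : π (X 3 * a - (X 0 * b + X 2 * c + X 4 * X 1 * d)) = 0 := by
      simp only [map_mul, map_add, map_sub, map_pow, map_neg, map_zero]
      linear_combination h
    obtain ⟨p, q, r, h1⟩ := (hk _).mp h0
    obtain ⟨b1, c1, d1, h2⟩ := L22S (a) (b + X 4 * p + X 1 * r) (c + X 4 * q - X 3 * r) (d) (by linear_combination h1)
    refine ⟨π (b1), π (c1), π (d1), ?_⟩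
    rw [h2]
    simp only [map_mul, map_add, map_sub, map_pow, map_neg, map_zero] <;> ring
  have f_L24 : ∀ a b c d : A, π (X 3) * a = π (X 0) * b + π (X 2) * c + (π (X 1) - π (X 4) ^ 2) * d → ∃ b' c' d', a = π (X 0) * b' + π (X 2) * c' + (π (X 1) - π (X 4) ^ 2) * d' := by
    intro a b c d h
    obtain ⟨a, rfl⟩ := hs a
    obtain ⟨b, rfl⟩ := hs b
    obtain ⟨c, rfl⟩ := hs c
    obtain ⟨d, rfl⟩ := hs d
    have h0 : π (X 3 * a - (X 0 * b + X 2 * c + (X 1 - X 4 ^ 2) * d)) = 0 := by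
      simp only [map_mul, map_add, map_sub, map_pow, map_neg, map_zero]
      linear_combination h
    obtain ⟨p, q, r, h1⟩ := (hk _).mp h0
    obtain ⟨b1, c1, d1, h2⟩ := L24S (a) (b + X 4 * p + X 1 * r) (c + X 4 * q - X 3 * r) (d) (by linear_combination h1)
    refine ⟨π (b1), π (c1), π (d1), ?_⟩
    rw [h2]
    simp only [map_mul, map_add, map_sub, map_pow, map_neg, map_zero] <;> ring
  have f_L25 : ∀ a b c d : A, (π (X 3) - π (X 4)) * a = π (X 0) * b + π (X 2) * c + (π (X 1) - π (X 4) ^ 2) * d → ∃ b' c' d', a = π (X 0) * b' + π (X 2) * c' + (π (X 1) - π (X 4) ^ 2) * d' := by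
    intro a b c d h
    obtain ⟨a, rfl⟩ := hs a
    obtain ⟨b, rfl⟩ := hs b
    obtain ⟨c, rfl⟩ := hs c
    obtain ⟨d, rfl⟩ := hs d
    have h0 : π ((X 3 - X 4) * a - (X 0 * b + X 2 * c + (X 1 - X 4 ^ 2) * d)) = 0 := by
      simp only [map_mul, map_add, map_sub, map_pow, map_neg, map_zero]
      linear_combination h
    obtain ⟨p, q, r, h1⟩ := (hk _).mp h0
    obtain ⟨b1, c1, d1, h2⟩ := L25S (a) (b + X 4 * p + X 1 * r) (c + X 4 * q - X 3 * r) (d) (by linear_combination h1)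
    refine ⟨π (b1), π (c1), π (d1), ?_⟩
    rw [h2]
    simp only [map_mul, map_add, map_sub, map_pow, map_neg, map_zero] <;> ring
  have f_L26 : ∀ a b c d : A, π (X 3) * a = π (X 0) * b + π (X 2) * c + π (X 4) * d → ∃ b' c' d', a = π (X 0) * b' + π (X 2) * c' + π (X 4) * d' := by
    intro a b c d h
    obtain ⟨a, rfl⟩ := hs a
    obtain ⟨b, rfl⟩ := hs b
    obtain ⟨c, rfl⟩ := hs c
    obtain ⟨d, rfl⟩ := hs d
    have h0 : π (X 3 * a - (X 0 * b + X 2 * c + X 4 * d)) = 0 := by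
      simp only [map_mul, map_add, map_sub, map_pow, map_neg, map_zero]
      linear_combination h
    obtain ⟨p, q, r, h1⟩ := (hk _).mp h0
    obtain ⟨b1, c1, d1, h2⟩ := L26S (a) (b + X 4 * p + X 1 * r) (c + X 4 * q - X 3 * r) (d) (by linear_combination h1)
    refine ⟨π (b1), π (c1), π (d1), ?_⟩
    rw [h2]
    simp only [map_mul, map_add, map_sub, map_pow, map_neg, map_zero] <;> ring
  have f_L27a : ∀ w3 a b c d : A, w3 * π (X 1) ^ 2 = π (X 0) * a + π (X 2) * b + π (X 3) * c + π (X 4) * π (X 1) * d → ∃ a b c d, w3 = π (X 0) * a + π (X 2) * b + π (X 3) * c + π (X 4) * d := by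
    intro w3 a b c d h
    obtain ⟨w3, rfl⟩ := hs w3
    obtain ⟨a, rfl⟩ := hs a
    obtain ⟨b, rfl⟩ := hs b
    obtain ⟨c, rfl⟩ := hs c
    obtain ⟨d, rfl⟩ := hs d
    have h0 : π (w3 * X 1 ^ 2 - (X 0 * a + X 2 * b + X 3 * c + X 4 * X 1 * d)) = 0 := by
      simp only [map_mul, map_add, map_sub, map_pow, map_neg, map_zero]
      linear_combination h
    obtain ⟨p, q, r, h1⟩ := (hk _).mp h0
    obtain ⟨a1, b1, c1, d1, h2⟩ := L27aS (w3) (a + X 4 * p + X 1 * r) (b + X 4 * q - X 3 * r) (c) (d) (by linear_combination h1)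
    refine ⟨π (a1), π (b1), π (c1), π (d1), ?_⟩
    rw [h2]
    simp only [map_mul, map_add, map_sub, map_pow, map_neg, map_zero] <;> ring
  have f_L27b : ∀ w1 w2 a b c d : A, w1 * π (X 4) ^ 2 - w2 * π (X 3) ^ 2 =
      π (X 0) * a + π (X 2) * b + (π (X 1) - π (X 4) ^ 2) * c + (π (X 3) ^ 2 - π (X 4) * π (X 3)) * d →
      ∃ e f a b c a' b' c', w1 = e * π (X 3) + π (X 0) * a + π (X 2) * b + (π (X 1) - π (X 4) ^ 2) * c ∧
      w2 = e * π (X 4) + f * (π (X 3) - π (X 4)) + π (X 0) * a' + π (X 2) * b' + (π (X 1) - π (X 4) ^ 2) * c' := by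
    intro w1 w2 a b c d h
    obtain ⟨w1, rfl⟩ := hs w1
    obtain ⟨w2, rfl⟩ := hs w2
    obtain ⟨a, rfl⟩ := hs a
    obtain ⟨b, rfl⟩ := hs b
    obtain ⟨c, rfl⟩ := hs c
    obtain ⟨d, rfl⟩ := hs d
    have h0 : π (w1 * X 4 ^ 2 - w2 * X 3 ^ 2 -
        (X 0 * a + X 2 * b + (X 1 - X 4 ^ 2) * c + (X 3 ^ 2 - X 4 * X 3) * d)) = 0 := by
      simp only [map_mul, map_add, map_sub, map_pow, map_neg, map_zero]
      linear_combination h
    obtain ⟨p, q, r, h1⟩ := (hk _).mp h0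
    obtain ⟨e, f, a1, b1, c1, a2, b2, c2, h2, h3⟩ := L27bS w1 w2 (a + X 4 * p + X 1 * r)
      (b + X 4 * q - X 3 * r) c d (by linear_combination h1)
    refine ⟨π e, π f, π a1, π b1, π c1, π a2, π b2, π c2, ?_, ?_⟩
    · rw [h2]
      simp only [map_mul, map_add, map_sub, map_pow, map_neg, map_zero]
    · rw [h3]
      simp only [map_mul, map_add, map_sub, map_pow, map_neg, map_zero]
  exact
    { xz := hxz
      uz := huz
      q := hq
      P0 := f_P0
      L11 := f_L11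
      L13 := f_L13
      L15 := f_L15
      L12 := f_L12
      L14 := f_L14
      L16 := f_L16
      M := f_M
      S1 := f_S1
      T1 := f_T1
      S2 := f_S2
      T2 := f_T2
      S3 := f_S3
      T3 := f_T3
      L21 := f_L21
      L21y := f_L21y
      L23 := f_L23
      L22 := f_L22
      L24 := f_L24
      L25 := f_L25
      L26 := f_L26
      L27a := f_L27a
      L27b := f_L27b }

/-- the ideal of relations -/
noncomputable def II : Ideal SS := Ideal.span {X 0 * X 4, X 2 * X 4, X 0 * X 1 - X 2 * X 3}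

theorem mem_II (a : SS) : a ∈ II ↔ ∃ p q r, a = X 0 * X 4 * p + X 2 * X 4 * q +
    (X 0 * X 1 - X 2 * X 3) * r := by
  rw [II]
  constructor
  · intro h
    obtain ⟨p, b, hb, rfl⟩ := Ideal.mem_span_insert.mp h
    obtain ⟨q, c, hc, rfl⟩ := Ideal.mem_span_insert.mp hb
    obtain ⟨r, rfl⟩ := Ideal.mem_span_singleton'.mp hc
    exact ⟨p, q, r, by ring⟩
  · rintro ⟨p, q, r, rfl⟩
    refine add_mem (add_mem ?_ ?_) ?_
    · exact Ideal.mul_mem_right _ _ (Ideal.subset_span (by simp))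
    · exact Ideal.mul_mem_right _ _ (Ideal.subset_span (by simp))
    · exact Ideal.mul_mem_right _ _ (Ideal.subset_span (by simp))

/-- the ring `A = ℚ[x, y, u, v, z] / (xz, uz, xy - uv)` -/
abbrev AA : Type := SS ⧸ II

theorem facts_AA : Facts (Ideal.Quotient.mk II (X 0)) (Ideal.Quotient.mk II (X 1))
    (Ideal.Quotient.mk II (X 2)) (Ideal.Quotient.mk II (X 3)) (Ideal.Quotient.mk II (X 4)) :=
  facts_of _ Ideal.Quotient.mk_surjective (fun a => by
    rw [Ideal.Quotient.eq_zero_iff_mem, mem_II])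

end Pool.Agent.Lib.MP_799861_al
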