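import Mathlib

set_option autoImplicit false
set_option linter.unusedSimpArgs false

open MvPolynomial

namespace Pool.Agent.Lib.MP_799861_al

/-- the polynomial ring `ℚ[x, y, u, v, z]` -/
abbrev SS : Type := MvPolynomial (Fin 5) ℚ

/-- substitute `p` for the `i`-th variable -/
noncomputable def sb (i : Fin 5) (p : SS) : SS →ₐ[ℚ] SS :=
  aeval (fun j => if j = i then p else X j)

theorem sb_same (i : Fin 5) (p : SS) : sb i p (X i) = p := by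
  simp [sb]

theorem sb_ne {i j : Fin 5} (h : j ≠ i) (p : SS) : sb i p (X j) = X j := by
  simp [sb, h]

theorem sb_spec (i : Fin 5) (p a : SS) : ∃ c, a = sb i p a + (X i - p) * c := by
  induction a using MvPolynomial.induction_on with
  | C r => exact ⟨0, by simp [sb]⟩
  | add a b ha hb =>
    obtain ⟨c, hc⟩ := ha
    obtain ⟨d, hd⟩ := hb
    exact ⟨c + d, by rw [map_add]; linear_combination hc + hd⟩
  | mul_X a j ha =>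
    obtain ⟨c, hc⟩ := ha
    rw [map_mul]
    by_cases hj : j = i
    · subst hj
      rw [sb_same]
      exact ⟨c * X j + sb j p a, by linear_combination (X j) * hc⟩
    · rw [sb_ne hj]
      exact ⟨c * X j, by linear_combination (X j) * hc⟩

theorem sb_zero_eq {i : Fin 5} {a : SS} (h : sb i 0 a = 0) : ∃ c, a = X i * c := by
  obtain ⟨c, hc⟩ := sb_spec i 0 a
  exact ⟨c, by rw [h] at hc; linear_combination hc⟩

theorem X_ne (i : Fin 5) : (X i : SS) ≠ 0 := MvPolynomial.X_ne_zero i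

theorem yz_ne : (X 1 - X 4 ^ 2 : SS) ≠ 0 := by
  intro h
  have h1 := congrArg (sb 1 0) h
  rw [map_sub, sb_same, map_pow, sb_ne (by decide), map_zero, zero_sub, neg_eq_zero] at h1
  exact pow_ne_zero 2 (X_ne 4) h1

theorem vz_ne : (X 3 - X 4 : SS) ≠ 0 := by
  intro h
  have h1 := congrArg (sb 3 0) h
  rw [map_sub, sb_same, sb_ne (by decide), map_zero, zero_sub, neg_eq_zero] at h1
  exact X_ne 4 h1

theorem sb0_1 (p : SS) : sb 0 p (X 1) = X 1 := sb_ne (by decide) p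
theorem sb0_2 (p : SS) : sb 0 p (X 2) = X 2 := sb_ne (by decide) p
theorem sb0_3 (p : SS) : sb 0 p (X 3) = X 3 := sb_ne (by decide) p
theorem sb0_4 (p : SS) : sb 0 p (X 4) = X 4 := sb_ne (by decide) p
theorem sb1_0 (p : SS) : sb 1 p (X 0) = X 0 := sb_ne (by decide) p
theorem sb1_2 (p : SS) : sb 1 p (X 2) = X 2 := sb_ne (by decide) p
theorem sb1_3 (p : SS) : sb 1 p (X 3) = X 3 := sb_ne (by decide) p
theorem sb1_4 (p : SS) : sb 1 p (X 4) = X 4 := sb_ne (by decide) p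
theorem sb2_0 (p : SS) : sb 2 p (X 0) = X 0 := sb_ne (by decide) p
theorem sb2_1 (p : SS) : sb 2 p (X 1) = X 1 := sb_ne (by decide) p
theorem sb2_3 (p : SS) : sb 2 p (X 3) = X 3 := sb_ne (by decide) p
theorem sb2_4 (p : SS) : sb 2 p (X 4) = X 4 := sb_ne (by decide) p
theorem sb3_0 (p : SS) : sb 3 p (X 0) = X 0 := sb_ne (by decide) p
theorem sb3_1 (p : SS) : sb 3 p (X 1) = X 1 := sb_ne (by decide) p
theorem sb3_2 (p : SS) : sb 3 p (X 2) = X 2 := sb_ne (by decide) p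
theorem sb3_4 (p : SS) : sb 3 p (X 4) = X 4 := sb_ne (by decide) p
theorem sb4_0 (p : SS) : sb 4 p (X 0) = X 0 := sb_ne (by decide) p
theorem sb4_1 (p : SS) : sb 4 p (X 1) = X 1 := sb_ne (by decide) p
theorem sb4_2 (p : SS) : sb 4 p (X 2) = X 2 := sb_ne (by decide) p
theorem sb4_3 (p : SS) : sb 4 p (X 3) = X 3 := sb_ne (by decide) p

theorem P0S (a b c : SS) (h : X 4 * a = X 0 * b + X 2 * c) :
    ∃ b c, a = X 0 * b + X 2 * c := by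
  obtain ⟨c1, hc1⟩ := sb_spec 0 0 a
  obtain ⟨c2, hc2⟩ := sb_spec 2 0 (sb 0 0 a)
  have h1 := congrArg (fun t => sb 2 0 (sb 0 0 t)) h
  simp only [map_mul, map_add, map_sub, map_pow, map_neg, map_zero, sb_same, sb0_1, sb0_2, sb0_3, sb0_4,
    sb1_0, sb1_2, sb1_3, sb1_4, sb2_0, sb2_1, sb2_3, sb2_4, sb3_0, sb3_1, sb3_2, sb3_4,
    sb4_0, sb4_1, sb4_2, sb4_3] at h1
  have h2 : sb 2 0 (sb 0 0 a) = 0 := by
    apply mul_left_cancel₀ (X_ne 4)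
    linear_combination h1
  exact ⟨c1, c2, by linear_combination hc1 + hc2 + h2⟩

theorem L21yS (a b c : SS) (h : X 1 * a = X 0 * b + X 2 * c) :
    ∃ b c, a = X 0 * b + X 2 * c := by
  obtain ⟨c1, hc1⟩ := sb_spec 0 0 a
  obtain ⟨c2, hc2⟩ := sb_spec 2 0 (sb 0 0 a)
  have h1 := congrArg (fun t => sb 2 0 (sb 0 0 t)) h
  simp only [map_mul, map_add, map_sub, map_pow, map_neg, map_zero, sb_same, sb0_1, sb0_2, sb0_3, sb0_4,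
    sb1_0, sb1_2, sb1_3, sb1_4, sb2_0, sb2_1, sb2_3, sb2_4, sb3_0, sb3_1, sb3_2, sb3_4,
    sb4_0, sb4_1, sb4_2, sb4_3] at h1
  have h2 : sb 2 0 (sb 0 0 a) = 0 := by
    apply mul_left_cancel₀ (X_ne 1)
    linear_combination h1
  exact ⟨c1, c2, by linear_combination hc1 + hc2 + h2⟩

theorem L23S (a b c : SS) (h : (X 1 - X 4 ^ 2) * a = X 0 * b + X 2 * c) :
    ∃ b c, a = X 0 * b + X 2 * c := by
  obtain ⟨c1, hc1⟩ := sb_spec 0 0 a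
  obtain ⟨c2, hc2⟩ := sb_spec 2 0 (sb 0 0 a)
  have h1 := congrArg (fun t => sb 2 0 (sb 0 0 t)) h
  simp only [map_mul, map_add, map_sub, map_pow, map_neg, map_zero, sb_same, sb0_1, sb0_2, sb0_3, sb0_4,
    sb1_0, sb1_2, sb1_3, sb1_4, sb2_0, sb2_1, sb2_3, sb2_4, sb3_0, sb3_1, sb3_2, sb3_4,
    sb4_0, sb4_1, sb4_2, sb4_3] at h1
  have h2 : sb 2 0 (sb 0 0 a) = 0 := by
    apply mul_left_cancel₀ yz_ne
    linear_combination h1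
  exact ⟨c1, c2, by linear_combination hc1 + hc2 + h2⟩

theorem L11S (a b r : SS) (h : X 0 * a = X 4 * b + (X 0 * X 1 - X 2 * X 3) * r) :
    ∃ c d, a = X 4 * c + (X 0 * X 1 - X 2 * X 3) * d := by
  obtain ⟨c, hc⟩ := sb_spec 4 0 a
  have h1 := congrArg (sb 4 0) h
  simp only [map_mul, map_add, map_sub, map_pow, map_neg, map_zero, sb_same, sb0_1, sb0_2, sb0_3, sb0_4,
    sb1_0, sb1_2, sb1_3, sb1_4, sb2_0, sb2_1, sb2_3, sb2_4, sb3_0, sb3_1, sb3_2, sb3_4,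
    sb4_0, sb4_1, sb4_2, sb4_3] at h1
  have h2 := congrArg (sb 0 0) h1
  simp only [map_mul, map_add, map_sub, map_pow, map_neg, map_zero, sb_same, sb0_1, sb0_2, sb0_3, sb0_4,
    sb1_0, sb1_2, sb1_3, sb1_4, sb2_0, sb2_1, sb2_3, sb2_4, sb3_0, sb3_1, sb3_2, sb3_4,
    sb4_0, sb4_1, sb4_2, sb4_3] at h2
  have h3 : sb 0 0 (sb 4 0 r) = 0 := by
    apply mul_left_cancel₀ (mul_ne_zero (X_ne 2) (X_ne 3))
    linear_combination (1 : SS) * h2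
  obtain ⟨s, hs⟩ := sb_zero_eq h3
  refine ⟨c, s, ?_⟩
  have h4 : sb 4 0 a = (X 0 * X 1 - X 2 * X 3) * s := by
    apply mul_left_cancel₀ (X_ne 0)
    rw [h1, hs]
    ring
  rw [hc, h4]
  ring

theorem L13S (a b r : SS) (h : X 1 * a = X 4 * b + (X 0 * X 1 - X 2 * X 3) * r) :
    ∃ c d, a = X 4 * c + (X 0 * X 1 - X 2 * X 3) * d := by
  obtain ⟨c, hc⟩ := sb_spec 4 0 a
  have h1 := congrArg (sb 4 0) h
  simp only [map_mul, map_add, map_sub, map_pow, map_neg, map_zero, sb_same, sb0_1, sb0_2, sb0_3, sb0_4,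
    sb1_0, sb1_2, sb1_3, sb1_4, sb2_0, sb2_1, sb2_3, sb2_4, sb3_0, sb3_1, sb3_2, sb3_4,
    sb4_0, sb4_1, sb4_2, sb4_3] at h1
  have h2 := congrArg (sb 1 0) h1
  simp only [map_mul, map_add, map_sub, map_pow, map_neg, map_zero, sb_same, sb0_1, sb0_2, sb0_3, sb0_4,
    sb1_0, sb1_2, sb1_3, sb1_4, sb2_0, sb2_1, sb2_3, sb2_4, sb3_0, sb3_1, sb3_2, sb3_4,
    sb4_0, sb4_1, sb4_2, sb4_3] at h2
  have h3 : sb 1 0 (sb 4 0 r) = 0 := by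
    apply mul_left_cancel₀ (mul_ne_zero (X_ne 2) (X_ne 3))
    linear_combination (1 : SS) * h2
  obtain ⟨s, hs⟩ := sb_zero_eq h3
  refine ⟨c, s, ?_⟩
  have h4 : sb 4 0 a = (X 0 * X 1 - X 2 * X 3) * s := by
    apply mul_left_cancel₀ (X_ne 1)
    rw [h1, hs]
    ring
  rw [hc, h4]
  ring

theorem L15S (a b r : SS) (h : X 2 * a = X 4 * b + (X 0 * X 1 - X 2 * X 3) * r) :
    ∃ c d, a = X 4 * c + (X 0 * X 1 - X 2 * X 3) * d := by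
  obtain ⟨c, hc⟩ := sb_spec 4 0 a
  have h1 := congrArg (sb 4 0) h
  simp only [map_mul, map_add, map_sub, map_pow, map_neg, map_zero, sb_same, sb0_1, sb0_2, sb0_3, sb0_4,
    sb1_0, sb1_2, sb1_3, sb1_4, sb2_0, sb2_1, sb2_3, sb2_4, sb3_0, sb3_1, sb3_2, sb3_4,
    sb4_0, sb4_1, sb4_2, sb4_3] at h1
  have h2 := congrArg (sb 2 0) h1
  simp only [map_mul, map_add, map_sub, map_pow, map_neg, map_zero, sb_same, sb0_1, sb0_2, sb0_3, sb0_4,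
    sb1_0, sb1_2, sb1_3, sb1_4, sb2_0, sb2_1, sb2_3, sb2_4, sb3_0, sb3_1, sb3_2, sb3_4,
    sb4_0, sb4_1, sb4_2, sb4_3] at h2
  have h3 : sb 2 0 (sb 4 0 r) = 0 := by
    apply mul_left_cancel₀ (mul_ne_zero (X_ne 0) (X_ne 1))
    linear_combination (-1 : SS) * h2
  obtain ⟨s, hs⟩ := sb_zero_eq h3
  refine ⟨c, s, ?_⟩
  have h4 : sb 4 0 a = (X 0 * X 1 - X 2 * X 3) * s := by
    apply mul_left_cancel₀ (X_ne 2)
    rw [h1, hs]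
    ring
  rw [hc, h4]
  ring

theorem L12S (a b c r : SS) (h : (X 3 + X 2 ^ 2) * a = X 4 * b + X 0 * c + X 2 * X 3 * r) :
    ∃ b c r, a = X 4 * b + X 0 * c + X 2 * X 3 * r := by
  obtain ⟨c1, hc1⟩ := sb_spec 4 0 a
  obtain ⟨c2, hc2⟩ := sb_spec 0 0 (sb 4 0 a)
  have h1 := congrArg (fun t => sb 0 0 (sb 4 0 t)) h
  simp only [map_mul, map_add, map_sub, map_pow, map_neg, map_zero, sb_same, sb0_1, sb0_2, sb0_3, sb0_4,
    sb1_0, sb1_2, sb1_3, sb1_4, sb2_0, sb2_1, sb2_3, sb2_4, sb3_0, sb3_1, sb3_2, sb3_4,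
    sb4_0, sb4_1, sb4_2, sb4_3] at h1
  have h2 := congrArg (sb 2 0) h1
  simp only [map_mul, map_add, map_sub, map_pow, map_neg, map_zero, sb_same, sb0_1, sb0_2, sb0_3, sb0_4,
    sb1_0, sb1_2, sb1_3, sb1_4, sb2_0, sb2_1, sb2_3, sb2_4, sb3_0, sb3_1, sb3_2, sb3_4,
    sb4_0, sb4_1, sb4_2, sb4_3] at h2
  have h3 : sb 2 0 (sb 0 0 (sb 4 0 a)) = 0 := by
    apply mul_left_cancel₀ (X_ne 3)
    linear_combination h2
  obtain ⟨s, hs⟩ := sb_zero_eq h3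
  rw [hs] at h1
  have h4 : (X 3 + X 2 ^ 2) * s = X 3 * sb 0 0 (sb 4 0 r) := by
    apply mul_left_cancel₀ (X_ne 2)
    linear_combination h1
  have h5 := congrArg (sb 3 0) h4
  simp only [map_mul, map_add, map_sub, map_pow, map_neg, map_zero, sb_same, sb0_1, sb0_2, sb0_3, sb0_4,
    sb1_0, sb1_2, sb1_3, sb1_4, sb2_0, sb2_1, sb2_3, sb2_4, sb3_0, sb3_1, sb3_2, sb3_4,
    sb4_0, sb4_1, sb4_2, sb4_3] at h5
  have h6 : sb 3 0 s = 0 := by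
    apply mul_left_cancel₀ (pow_ne_zero 2 (X_ne 2))
    linear_combination h5
  obtain ⟨s', hs'⟩ := sb_zero_eq h6
  exact ⟨c1, c2, s', by linear_combination hc1 + hc2 + hs + X 2 * hs'⟩

theorem L14S (a b c r : SS) (h : (X 2 + X 3 ^ 2) * a = X 4 * b + X 1 * c + X 3 * X 2 * r) :
    ∃ b c r, a = X 4 * b + X 1 * c + X 3 * X 2 * r := by
  obtain ⟨c1, hc1⟩ := sb_spec 4 0 a
  obtain ⟨c2, hc2⟩ := sb_spec 1 0 (sb 4 0 a)
  have h1 := congrArg (fun t => sb 1 0 (sb 4 0 t)) h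
  simp only [map_mul, map_add, map_sub, map_pow, map_neg, map_zero, sb_same, sb0_1, sb0_2, sb0_3, sb0_4,
    sb1_0, sb1_2, sb1_3, sb1_4, sb2_0, sb2_1, sb2_3, sb2_4, sb3_0, sb3_1, sb3_2, sb3_4,
    sb4_0, sb4_1, sb4_2, sb4_3] at h1
  have h2 := congrArg (sb 3 0) h1
  simp only [map_mul, map_add, map_sub, map_pow, map_neg, map_zero, sb_same, sb0_1, sb0_2, sb0_3, sb0_4,
    sb1_0, sb1_2, sb1_3, sb1_4, sb2_0, sb2_1, sb2_3, sb2_4, sb3_0, sb3_1, sb3_2, sb3_4,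
    sb4_0, sb4_1, sb4_2, sb4_3] at h2
  have h3 : sb 3 0 (sb 1 0 (sb 4 0 a)) = 0 := by
    apply mul_left_cancel₀ (X_ne 2)
    linear_combination h2
  obtain ⟨s, hs⟩ := sb_zero_eq h3
  rw [hs] at h1
  have h4 : (X 2 + X 3 ^ 2) * s = X 2 * sb 1 0 (sb 4 0 r) := by
    apply mul_left_cancel₀ (X_ne 3)
    linear_combination h1
  have h5 := congrArg (sb 2 0) h4
  simp only [map_mul, map_add, map_sub, map_pow, map_neg, map_zero, sb_same, sb0_1, sb0_2, sb0_3, sb0_4,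
    sb1_0, sb1_2, sb1_3, sb1_4, sb2_0, sb2_1, sb2_3, sb2_4, sb3_0, sb3_1, sb3_2, sb3_4,
    sb4_0, sb4_1, sb4_2, sb4_3] at h5
  have h6 : sb 2 0 s = 0 := by
    apply mul_left_cancel₀ (pow_ne_zero 2 (X_ne 3))
    linear_combination h5
  obtain ⟨s', hs'⟩ := sb_zero_eq h6
  exact ⟨c1, c2, s', by linear_combination hc1 + hc2 + hs + X 3 * hs'⟩

theorem L16S (a b c r : SS) (h : X 3 * a = X 4 * b + X 2 * c + X 0 * X 1 * r) :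
    ∃ b c r, a = X 4 * b + X 2 * c + X 0 * X 1 * r := by
  obtain ⟨c1, hc1⟩ := sb_spec 4 0 a
  obtain ⟨c2, hc2⟩ := sb_spec 2 0 (sb 4 0 a)
  have h1 := congrArg (fun t => sb 2 0 (sb 4 0 t)) h
  simp only [map_mul, map_add, map_sub, map_pow, map_neg, map_zero, sb_same, sb0_1, sb0_2, sb0_3, sb0_4,
    sb1_0, sb1_2, sb1_3, sb1_4, sb2_0, sb2_1, sb2_3, sb2_4, sb3_0, sb3_1, sb3_2, sb3_4,
    sb4_0, sb4_1, sb4_2, sb4_3] at h1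
  have h2 := congrArg (sb 3 0) h1
  simp only [map_mul, map_add, map_sub, map_pow, map_neg, map_zero, sb_same, sb0_1, sb0_2, sb0_3, sb0_4,
    sb1_0, sb1_2, sb1_3, sb1_4, sb2_0, sb2_1, sb2_3, sb2_4, sb3_0, sb3_1, sb3_2, sb3_4,
    sb4_0, sb4_1, sb4_2, sb4_3] at h2
  have h3 : sb 3 0 (sb 2 0 (sb 4 0 r)) = 0 := by
    apply mul_left_cancel₀ (mul_ne_zero (X_ne 0) (X_ne 1))
    linear_combination (-1 : SS) * h2
  obtain ⟨s, hs⟩ := sb_zero_eq h3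
  rw [hs] at h1
  have h4 : sb 2 0 (sb 4 0 a) = X 0 * X 1 * s := by
    apply mul_left_cancel₀ (X_ne 3)
    linear_combination h1
  exact ⟨c1, c2, s, by linear_combination hc1 + hc2 + h4⟩

theorem MS (a b c d e b' c' d' e' : SS) (h : a = X 0 * b + X 2 * c + X 3 * d + X 4 * e)
    (h' : a = X 1 * b' + X 2 * c' + X 3 * d' + X 4 * e') :
    ∃ r c d e, a = X 0 * X 1 * r + X 2 * c + X 3 * d + X 4 * e := by
  obtain ⟨c1, hc1⟩ := sb_spec 2 0 a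
  obtain ⟨c2, hc2⟩ := sb_spec 3 0 (sb 2 0 a)
  obtain ⟨c3, hc3⟩ := sb_spec 4 0 (sb 3 0 (sb 2 0 a))
  have h1 := congrArg (fun t => sb 4 0 (sb 3 0 (sb 2 0 t))) h
  have h2 := congrArg (fun t => sb 4 0 (sb 3 0 (sb 2 0 t))) h'
  simp only [map_mul, map_add, map_sub, map_pow, map_neg, map_zero, sb_same, sb0_1, sb0_2, sb0_3, sb0_4,
    sb1_0, sb1_2, sb1_3, sb1_4, sb2_0, sb2_1, sb2_3, sb2_4, sb3_0, sb3_1, sb3_2, sb3_4,
    sb4_0, sb4_1, sb4_2, sb4_3] at h1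
  simp only [map_mul, map_add, map_sub, map_pow, map_neg, map_zero, sb_same, sb0_1, sb0_2, sb0_3, sb0_4,
    sb1_0, sb1_2, sb1_3, sb1_4, sb2_0, sb2_1, sb2_3, sb2_4, sb3_0, sb3_1, sb3_2, sb3_4,
    sb4_0, sb4_1, sb4_2, sb4_3] at h2
  have h3 := h2
  rw [h1] at h3
  have h4 := congrArg (sb 0 0) h3
  simp only [map_mul, map_add, map_sub, map_pow, map_neg, map_zero, sb_same, sb0_1, sb0_2, sb0_3, sb0_4,
    sb1_0, sb1_2, sb1_3, sb1_4, sb2_0, sb2_1, sb2_3, sb2_4, sb3_0, sb3_1, sb3_2, sb3_4,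
    sb4_0, sb4_1, sb4_2, sb4_3] at h4
  have h5 : sb 0 0 (sb 4 0 (sb 3 0 (sb 2 0 b'))) = 0 := by
    apply mul_left_cancel₀ (X_ne 1)
    linear_combination (-1 : SS) * h4
  obtain ⟨s, hs⟩ := sb_zero_eq h5
  rw [hs] at h2
  exact ⟨s, c1, c2, c3, by linear_combination hc1 + hc2 + hc3 + h2⟩

theorem S1S (w3 w1 w2 a b c r : SS) (h : w3 * X 1 ^ 2 + w1 * (X 2 * X 1) + w2 * X 2 ^ 2 =
    X 4 * a + X 0 * b + (X 3 + X 2 ^ 2) * c + X 2 * X 3 * r) :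
    ∃ a b c d, w3 = X 4 * a + X 0 * b + X 2 * c + X 3 * d := by
  obtain ⟨c1, hc1⟩ := sb_spec 4 0 w3
  obtain ⟨c2, hc2⟩ := sb_spec 0 0 (sb 4 0 w3)
  obtain ⟨c3, hc3⟩ := sb_spec 3 (-X 2 ^ 2) (sb 0 0 (sb 4 0 w3))
  have h1 := congrArg (fun t => sb 3 (-X 2 ^ 2) (sb 0 0 (sb 4 0 t))) h
  simp only [map_mul, map_add, map_sub, map_pow, map_neg, map_zero, sb_same, sb0_1, sb0_2, sb0_3, sb0_4,
    sb1_0, sb1_2, sb1_3, sb1_4, sb2_0, sb2_1, sb2_3, sb2_4, sb3_0, sb3_1, sb3_2, sb3_4,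
    sb4_0, sb4_1, sb4_2, sb4_3] at h1
  have h2 := congrArg (sb 2 0) h1
  simp only [map_mul, map_add, map_sub, map_pow, map_neg, map_zero, sb_same, sb0_1, sb0_2, sb0_3, sb0_4,
    sb1_0, sb1_2, sb1_3, sb1_4, sb2_0, sb2_1, sb2_3, sb2_4, sb3_0, sb3_1, sb3_2, sb3_4,
    sb4_0, sb4_1, sb4_2, sb4_3] at h2
  have h3 : sb 2 0 (sb 3 (-X 2 ^ 2) (sb 0 0 (sb 4 0 w3))) = 0 := by
    apply mul_left_cancel₀ (pow_ne_zero 2 (X_ne 1))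
    linear_combination h2
  obtain ⟨s, hs⟩ := sb_zero_eq h3
  refine ⟨c1, c2, s + X 2 * c3, c3, ?_⟩
  linear_combination hc1 + hc2 + hc3 + hs

theorem S2S (w1 w2 a b c r : SS) (h : w1 * (X 2 * X 1) + w2 * X 2 ^ 2 =
    X 4 * a + X 0 * b + (X 3 + X 2 ^ 2) * c + X 2 * X 3 * r) :
    ∃ a b c d, w1 = X 4 * a + X 0 * b + X 2 * c + X 3 * d := by
  obtain ⟨c1, hc1⟩ := sb_spec 4 0 w1
  obtain ⟨c2, hc2⟩ := sb_spec 0 0 (sb 4 0 w1)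
  obtain ⟨c3, hc3⟩ := sb_spec 3 (-X 2 ^ 2) (sb 0 0 (sb 4 0 w1))
  have h1 := congrArg (fun t => sb 3 (-X 2 ^ 2) (sb 0 0 (sb 4 0 t))) h
  simp only [map_mul, map_add, map_sub, map_pow, map_neg, map_zero, sb_same, sb0_1, sb0_2, sb0_3, sb0_4,
    sb1_0, sb1_2, sb1_3, sb1_4, sb2_0, sb2_1, sb2_3, sb2_4, sb3_0, sb3_1, sb3_2, sb3_4,
    sb4_0, sb4_1, sb4_2, sb4_3] at h1
  have h1' : sb 3 (-X 2 ^ 2) (sb 0 0 (sb 4 0 w1)) * X 1 + sb 3 (-X 2 ^ 2) (sb 0 0 (sb 4 0 w2)) * X 2 = - (X 2 ^ 2) * sb 3 (-X 2 ^ 2) (sb 0 0 (sb 4 0 r)) := by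
    apply mul_left_cancel₀ (X_ne 2)
    linear_combination h1
  have h2 := congrArg (sb 2 0) h1'
  simp only [map_mul, map_add, map_sub, map_pow, map_neg, map_zero, sb_same, sb0_1, sb0_2, sb0_3, sb0_4,
    sb1_0, sb1_2, sb1_3, sb1_4, sb2_0, sb2_1, sb2_3, sb2_4, sb3_0, sb3_1, sb3_2, sb3_4,
    sb4_0, sb4_1, sb4_2, sb4_3] at h2
  have h3 : sb 2 0 (sb 3 (-X 2 ^ 2) (sb 0 0 (sb 4 0 w1))) = 0 := by
    apply mul_left_cancel₀ (X_ne 1)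
    linear_combination h2
  obtain ⟨s, hs⟩ := sb_zero_eq h3
  refine ⟨c1, c2, s + X 2 * c3, c3, ?_⟩
  linear_combination hc1 + hc2 + hc3 + hs

theorem S3S (w2 a b c r : SS) (h : w2 * X 2 ^ 2 =
    X 4 * a + X 0 * b + (X 3 + X 2 ^ 2) * c + X 2 * X 3 * r) :
    ∃ a b c d, w2 = X 4 * a + X 0 * b + X 2 * c + X 3 * d := by
  obtain ⟨c1, hc1⟩ := sb_spec 4 0 w2
  obtain ⟨c2, hc2⟩ := sb_spec 0 0 (sb 4 0 w2)
  obtain ⟨c3, hc3⟩ := sb_spec 3 (-X 2 ^ 2) (sb 0 0 (sb 4 0 w2))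
  have h1 := congrArg (fun t => sb 3 (-X 2 ^ 2) (sb 0 0 (sb 4 0 t))) h
  simp only [map_mul, map_add, map_sub, map_pow, map_neg, map_zero, sb_same, sb0_1, sb0_2, sb0_3, sb0_4,
    sb1_0, sb1_2, sb1_3, sb1_4, sb2_0, sb2_1, sb2_3, sb2_4, sb3_0, sb3_1, sb3_2, sb3_4,
    sb4_0, sb4_1, sb4_2, sb4_3] at h1
  obtain ⟨s, hs⟩ : ∃ s, sb 3 (-X 2 ^ 2) (sb 0 0 (sb 4 0 w2)) = X 2 * s := by
    refine ⟨-sb 3 (-X 2 ^ 2) (sb 0 0 (sb 4 0 r)), ?_⟩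
    apply mul_left_cancel₀ (pow_ne_zero 2 (X_ne 2))
    linear_combination h1
  refine ⟨c1, c2, s + X 2 * c3, c3, ?_⟩
  linear_combination hc1 + hc2 + hc3 + hs

theorem T1S (w3 w1 w2 a b c r : SS) (h : w3 * X 0 ^ 2 + w1 * (X 3 * X 0) + w2 * X 3 ^ 2 =
    X 4 * a + X 1 * b + (X 2 + X 3 ^ 2) * c + X 3 * X 2 * r) :
    ∃ a b c d, w3 = X 4 * a + X 1 * b + X 3 * c + X 2 * d := by
  obtain ⟨c1, hc1⟩ := sb_spec 4 0 w3
  obtain ⟨c2, hc2⟩ := sb_spec 1 0 (sb 4 0 w3)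
  obtain ⟨c3, hc3⟩ := sb_spec 2 (-X 3 ^ 2) (sb 1 0 (sb 4 0 w3))
  have h1 := congrArg (fun t => sb 2 (-X 3 ^ 2) (sb 1 0 (sb 4 0 t))) h
  simp only [map_mul, map_add, map_sub, map_pow, map_neg, map_zero, sb_same, sb0_1, sb0_2, sb0_3, sb0_4,
    sb1_0, sb1_2, sb1_3, sb1_4, sb2_0, sb2_1, sb2_3, sb2_4, sb3_0, sb3_1, sb3_2, sb3_4,
    sb4_0, sb4_1, sb4_2, sb4_3] at h1
  have h2 := congrArg (sb 3 0) h1
  simp only [map_mul, map_add, map_sub, map_pow, map_neg, map_zero, sb_same, sb0_1, sb0_2, sb0_3, sb0_4,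
    sb1_0, sb1_2, sb1_3, sb1_4, sb2_0, sb2_1, sb2_3, sb2_4, sb3_0, sb3_1, sb3_2, sb3_4,
    sb4_0, sb4_1, sb4_2, sb4_3] at h2
  have h3 : sb 3 0 (sb 2 (-X 3 ^ 2) (sb 1 0 (sb 4 0 w3))) = 0 := by
    apply mul_left_cancel₀ (pow_ne_zero 2 (X_ne 0))
    linear_combination h2
  obtain ⟨s, hs⟩ := sb_zero_eq h3
  refine ⟨c1, c2, s + X 3 * c3, c3, ?_⟩
  linear_combination hc1 + hc2 + hc3 + hs

theorem T2S (w1 w2 a b c r : SS) (h : w1 * (X 3 * X 0) + w2 * X 3 ^ 2 =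
    X 4 * a + X 1 * b + (X 2 + X 3 ^ 2) * c + X 3 * X 2 * r) :
    ∃ a b c d, w1 = X 4 * a + X 1 * b + X 3 * c + X 2 * d := by
  obtain ⟨c1, hc1⟩ := sb_spec 4 0 w1
  obtain ⟨c2, hc2⟩ := sb_spec 1 0 (sb 4 0 w1)
  obtain ⟨c3, hc3⟩ := sb_spec 2 (-X 3 ^ 2) (sb 1 0 (sb 4 0 w1))
  have h1 := congrArg (fun t => sb 2 (-X 3 ^ 2) (sb 1 0 (sb 4 0 t))) h
  simp only [map_mul, map_add, map_sub, map_pow, map_neg, map_zero, sb_same, sb0_1, sb0_2, sb0_3, sb0_4,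
    sb1_0, sb1_2, sb1_3, sb1_4, sb2_0, sb2_1, sb2_3, sb2_4, sb3_0, sb3_1, sb3_2, sb3_4,
    sb4_0, sb4_1, sb4_2, sb4_3] at h1
  have h1' : sb 2 (-X 3 ^ 2) (sb 1 0 (sb 4 0 w1)) * X 0 + sb 2 (-X 3 ^ 2) (sb 1 0 (sb 4 0 w2)) * X 3 = - (X 3 ^ 2) * sb 2 (-X 3 ^ 2) (sb 1 0 (sb 4 0 r)) := by
    apply mul_left_cancel₀ (X_ne 3)
    linear_combination h1
  have h2 := congrArg (sb 3 0) h1'
  simp only [map_mul, map_add, map_sub, map_pow, map_neg, map_zero, sb_same, sb0_1, sb0_2, sb0_3, sb0_4,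
    sb1_0, sb1_2, sb1_3, sb1_4, sb2_0, sb2_1, sb2_3, sb2_4, sb3_0, sb3_1, sb3_2, sb3_4,
    sb4_0, sb4_1, sb4_2, sb4_3] at h2
  have h3 : sb 3 0 (sb 2 (-X 3 ^ 2) (sb 1 0 (sb 4 0 w1))) = 0 := by
    apply mul_left_cancel₀ (X_ne 0)
    linear_combination h2
  obtain ⟨s, hs⟩ := sb_zero_eq h3
  refine ⟨c1, c2, s + X 3 * c3, c3, ?_⟩
  linear_combination hc1 + hc2 + hc3 + hs

theorem T3S (w2 a b c r : SS) (h : w2 * X 3 ^ 2 =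
    X 4 * a + X 1 * b + (X 2 + X 3 ^ 2) * c + X 3 * X 2 * r) :
    ∃ a b c d, w2 = X 4 * a + X 1 * b + X 3 * c + X 2 * d := by
  obtain ⟨c1, hc1⟩ := sb_spec 4 0 w2
  obtain ⟨c2, hc2⟩ := sb_spec 1 0 (sb 4 0 w2)
  obtain ⟨c3, hc3⟩ := sb_spec 2 (-X 3 ^ 2) (sb 1 0 (sb 4 0 w2))
  have h1 := congrArg (fun t => sb 2 (-X 3 ^ 2) (sb 1 0 (sb 4 0 t))) h
  simp only [map_mul, map_add, map_sub, map_pow, map_neg, map_zero, sb_same, sb0_1, sb0_2, sb0_3, sb0_4,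
    sb1_0, sb1_2, sb1_3, sb1_4, sb2_0, sb2_1, sb2_3, sb2_4, sb3_0, sb3_1, sb3_2, sb3_4,
    sb4_0, sb4_1, sb4_2, sb4_3] at h1
  obtain ⟨s, hs⟩ : ∃ s, sb 2 (-X 3 ^ 2) (sb 1 0 (sb 4 0 w2)) = X 3 * s := by
    refine ⟨-sb 2 (-X 3 ^ 2) (sb 1 0 (sb 4 0 r)), ?_⟩
    apply mul_left_cancel₀ (pow_ne_zero 2 (X_ne 3))
    linear_combination h1
  refine ⟨c1, c2, s + X 3 * c3, c3, ?_⟩
  linear_combination hc1 + hc2 + hc3 + hs

theorem L22S (a b c d : SS) (h : X 3 * a = X 0 * b + X 2 * c + X 4 * X 1 * d) :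
    ∃ b c d, a = X 0 * b + X 2 * c + X 4 * X 1 * d := by
  obtain ⟨c1, hc1⟩ := sb_spec 0 0 a
  obtain ⟨c2, hc2⟩ := sb_spec 2 0 (sb 0 0 a)
  have h1 := congrArg (fun t => sb 2 0 (sb 0 0 t)) h
  simp only [map_mul, map_add, map_sub, map_pow, map_neg, map_zero, sb_same, sb0_1, sb0_2, sb0_3, sb0_4,
    sb1_0, sb1_2, sb1_3, sb1_4, sb2_0, sb2_1, sb2_3, sb2_4, sb3_0, sb3_1, sb3_2, sb3_4,
    sb4_0, sb4_1, sb4_2, sb4_3] at h1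
  have h2 := congrArg (sb 3 0) h1
  simp only [map_mul, map_add, map_sub, map_pow, map_neg, map_zero, sb_same, sb0_1, sb0_2, sb0_3, sb0_4,
    sb1_0, sb1_2, sb1_3, sb1_4, sb2_0, sb2_1, sb2_3, sb2_4, sb3_0, sb3_1, sb3_2, sb3_4,
    sb4_0, sb4_1, sb4_2, sb4_3] at h2
  have h3 : sb 3 0 (sb 2 0 (sb 0 0 d)) = 0 := by
    apply mul_left_cancel₀ (mul_ne_zero (X_ne 4) (X_ne 1))
    linear_combination (-1 : SS) * h2
  obtain ⟨s, hs⟩ : ∃ s, sb 2 0 (sb 0 0 d) = X 3 * s := by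
    obtain ⟨s, hs⟩ := sb_spec 3 0 (sb 2 0 (sb 0 0 d))
    exact ⟨s, by rw [h3] at hs; linear_combination hs⟩
  rw [hs] at h1
  have h4 : sb 2 0 (sb 0 0 a) = X 4 * X 1 * s := by
    apply mul_left_cancel₀ (X_ne 3)
    linear_combination h1
  exact ⟨c1, c2, s, by linear_combination hc1 + hc2 + h4⟩

theorem L24S (a b c d : SS) (h : X 3 * a = X 0 * b + X 2 * c + (X 1 - X 4 ^ 2) * d) :
    ∃ b c d, a = X 0 * b + X 2 * c + (X 1 - X 4 ^ 2) * d := by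
  obtain ⟨c1, hc1⟩ := sb_spec 0 0 a
  obtain ⟨c2, hc2⟩ := sb_spec 2 0 (sb 0 0 a)
  have h1 := congrArg (fun t => sb 2 0 (sb 0 0 t)) h
  simp only [map_mul, map_add, map_sub, map_pow, map_neg, map_zero, sb_same, sb0_1, sb0_2, sb0_3, sb0_4,
    sb1_0, sb1_2, sb1_3, sb1_4, sb2_0, sb2_1, sb2_3, sb2_4, sb3_0, sb3_1, sb3_2, sb3_4,
    sb4_0, sb4_1, sb4_2, sb4_3] at h1
  have h2 := congrArg (sb 3 0) h1
  simp only [map_mul, map_add, map_sub, map_pow, map_neg, map_zero, sb_same, sb0_1, sb0_2, sb0_3, sb0_4,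
    sb1_0, sb1_2, sb1_3, sb1_4, sb2_0, sb2_1, sb2_3, sb2_4, sb3_0, sb3_1, sb3_2, sb3_4,
    sb4_0, sb4_1, sb4_2, sb4_3] at h2
  have h3 : sb 3 0 (sb 2 0 (sb 0 0 d)) = 0 := by
    apply mul_left_cancel₀ yz_ne
    linear_combination (-1 : SS) * h2
  obtain ⟨s, hs⟩ : ∃ s, sb 2 0 (sb 0 0 d) = X 3 * s := by
    obtain ⟨s, hs⟩ := sb_spec 3 0 (sb 2 0 (sb 0 0 d))
    exact ⟨s, by rw [h3] at hs; linear_combination hs⟩
  rw [hs] at h1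
  have h4 : sb 2 0 (sb 0 0 a) = (X 1 - X 4 ^ 2) * s := by
    apply mul_left_cancel₀ (X_ne 3)
    linear_combination h1
  exact ⟨c1, c2, s, by linear_combination hc1 + hc2 + h4⟩

theorem L25S (a b c d : SS) (h : (X 3 - X 4) * a = X 0 * b + X 2 * c + (X 1 - X 4 ^ 2) * d) :
    ∃ b c d, a = X 0 * b + X 2 * c + (X 1 - X 4 ^ 2) * d := by
  obtain ⟨c1, hc1⟩ := sb_spec 0 0 a
  obtain ⟨c2, hc2⟩ := sb_spec 2 0 (sb 0 0 a)
  have h1 := congrArg (fun t => sb 2 0 (sb 0 0 t)) h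
  simp only [map_mul, map_add, map_sub, map_pow, map_neg, map_zero, sb_same, sb0_1, sb0_2, sb0_3, sb0_4,
    sb1_0, sb1_2, sb1_3, sb1_4, sb2_0, sb2_1, sb2_3, sb2_4, sb3_0, sb3_1, sb3_2, sb3_4,
    sb4_0, sb4_1, sb4_2, sb4_3] at h1
  have h2 := congrArg (sb 3 (X 4)) h1
  simp only [map_mul, map_add, map_sub, map_pow, map_neg, map_zero, sb_same, sb0_1, sb0_2, sb0_3, sb0_4,
    sb1_0, sb1_2, sb1_3, sb1_4, sb2_0, sb2_1, sb2_3, sb2_4, sb3_0, sb3_1, sb3_2, sb3_4,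
    sb4_0, sb4_1, sb4_2, sb4_3] at h2
  have h3 : sb 3 (X 4) (sb 2 0 (sb 0 0 d)) = 0 := by
    apply mul_left_cancel₀ yz_ne
    linear_combination (-1 : SS) * h2
  obtain ⟨s, hs⟩ : ∃ s, sb 2 0 (sb 0 0 d) = (X 3 - X 4) * s := by
    obtain ⟨s, hs⟩ := sb_spec 3 (X 4) (sb 2 0 (sb 0 0 d))
    exact ⟨s, by rw [h3] at hs; linear_combination hs⟩
  rw [hs] at h1
  have h4 : sb 2 0 (sb 0 0 a) = (X 1 - X 4 ^ 2) * s := by
    apply mul_left_cancel₀ vz_ne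
    linear_combination h1
  exact ⟨c1, c2, s, by linear_combination hc1 + hc2 + h4⟩

theorem L26S (a b c d : SS) (h : X 3 * a = X 0 * b + X 2 * c + X 4 * d) :
    ∃ b c d, a = X 0 * b + X 2 * c + X 4 * d := by
  obtain ⟨c1, hc1⟩ := sb_spec 0 0 a
  obtain ⟨c2, hc2⟩ := sb_spec 2 0 (sb 0 0 a)
  have h1 := congrArg (fun t => sb 2 0 (sb 0 0 t)) h
  simp only [map_mul, map_add, map_sub, map_pow, map_neg, map_zero, sb_same, sb0_1, sb0_2, sb0_3, sb0_4,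
    sb1_0, sb1_2, sb1_3, sb1_4, sb2_0, sb2_1, sb2_3, sb2_4, sb3_0, sb3_1, sb3_2, sb3_4,
    sb4_0, sb4_1, sb4_2, sb4_3] at h1
  have h2 := congrArg (sb 3 0) h1
  simp only [map_mul, map_add, map_sub, map_pow, map_neg, map_zero, sb_same, sb0_1, sb0_2, sb0_3, sb0_4,
    sb1_0, sb1_2, sb1_3, sb1_4, sb2_0, sb2_1, sb2_3, sb2_4, sb3_0, sb3_1, sb3_2, sb3_4,
    sb4_0, sb4_1, sb4_2, sb4_3] at h2
  have h3 : sb 3 0 (sb 2 0 (sb 0 0 d)) = 0 := by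
    apply mul_left_cancel₀ (X_ne 4)
    linear_combination (-1 : SS) * h2
  obtain ⟨s, hs⟩ : ∃ s, sb 2 0 (sb 0 0 d) = X 3 * s := by
    obtain ⟨s, hs⟩ := sb_spec 3 0 (sb 2 0 (sb 0 0 d))
    exact ⟨s, by rw [h3] at hs; linear_combination hs⟩
  rw [hs] at h1
  have h4 : sb 2 0 (sb 0 0 a) = X 4 * s := by
    apply mul_left_cancel₀ (X_ne 3)
    linear_combination h1
  exact ⟨c1, c2, s, by linear_combination hc1 + hc2 + h4⟩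

theorem L27aS (w3 a b c d : SS) (h : w3 * X 1 ^ 2 = X 0 * a + X 2 * b + X 3 * c + X 4 * X 1 * d) :
    ∃ a b c d, w3 = X 0 * a + X 2 * b + X 3 * c + X 4 * d := by
  obtain ⟨c1, hc1⟩ := sb_spec 0 0 w3
  obtain ⟨c2, hc2⟩ := sb_spec 2 0 (sb 0 0 w3)
  obtain ⟨c3, hc3⟩ := sb_spec 3 0 (sb 2 0 (sb 0 0 w3))
  have h1 := congrArg (fun t => sb 3 0 (sb 2 0 (sb 0 0 t))) h
  simp only [map_mul, map_add, map_sub, map_pow, map_neg, map_zero, sb_same, sb0_1, sb0_2, sb0_3, sb0_4,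
    sb1_0, sb1_2, sb1_3, sb1_4, sb2_0, sb2_1, sb2_3, sb2_4, sb3_0, sb3_1, sb3_2, sb3_4,
    sb4_0, sb4_1, sb4_2, sb4_3] at h1
  have h2 := congrArg (sb 4 0) h1
  simp only [map_mul, map_add, map_sub, map_pow, map_neg, map_zero, sb_same, sb0_1, sb0_2, sb0_3, sb0_4,
    sb1_0, sb1_2, sb1_3, sb1_4, sb2_0, sb2_1, sb2_3, sb2_4, sb3_0, sb3_1, sb3_2, sb3_4,
    sb4_0, sb4_1, sb4_2, sb4_3] at h2
  have h3 : sb 4 0 (sb 3 0 (sb 2 0 (sb 0 0 w3))) = 0 := by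
    apply mul_left_cancel₀ (pow_ne_zero 2 (X_ne 1))
    linear_combination h2
  obtain ⟨s, hs⟩ := sb_zero_eq h3
  exact ⟨c1, c2, c3, s, by linear_combination hc1 + hc2 + hc3 + hs⟩

theorem L27bS (w1 w2 a b c d : SS) (h : w1 * X 4 ^ 2 - w2 * X 3 ^ 2 =
    X 0 * a + X 2 * b + (X 1 - X 4 ^ 2) * c + (X 3 ^ 2 - X 4 * X 3) * d) :
    ∃ e f a b c a' b' c', w1 = e * X 3 + X 0 * a + X 2 * b + (X 1 - X 4 ^ 2) * c ∧
      w2 = e * X 4 + f * (X 3 - X 4) + X 0 * a' + X 2 * b' + (X 1 - X 4 ^ 2) * c' := by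
  obtain ⟨c1, hc1⟩ := sb_spec 0 0 w1
  obtain ⟨c2, hc2⟩ := sb_spec 2 0 (sb 0 0 w1)
  obtain ⟨c3, hc3⟩ := sb_spec 1 (X 4 ^ 2) (sb 2 0 (sb 0 0 w1))
  obtain ⟨d1, hd1⟩ := sb_spec 0 0 w2
  obtain ⟨d2, hd2⟩ := sb_spec 2 0 (sb 0 0 w2)
  obtain ⟨d3, hd3⟩ := sb_spec 1 (X 4 ^ 2) (sb 2 0 (sb 0 0 w2))
  have h1 := congrArg (fun t => sb 1 (X 4 ^ 2) (sb 2 0 (sb 0 0 t))) h
  simp only [map_mul, map_add, map_sub, map_pow, map_neg, map_zero, sb_same, sb0_1, sb0_2, sb0_3, sb0_4,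
    sb1_0, sb1_2, sb1_3, sb1_4, sb2_0, sb2_1, sb2_3, sb2_4, sb3_0, sb3_1, sb3_2, sb3_4,
    sb4_0, sb4_1, sb4_2, sb4_3] at h1
  generalize sb 1 (X 4 ^ 2) (sb 2 0 (sb 0 0 w1)) = p1 at h1 hc3
  generalize sb 1 (X 4 ^ 2) (sb 2 0 (sb 0 0 w2)) = p2 at h1 hd3
  generalize sb 1 (X 4 ^ 2) (sb 2 0 (sb 0 0 d)) = p3 at h1
  have h2 := congrArg (sb 3 0) h1
  simp only [map_mul, map_add, map_sub, map_pow, map_neg, map_zero, sb_same, sb0_1, sb0_2, sb0_3, sb0_4,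
    sb1_0, sb1_2, sb1_3, sb1_4, sb2_0, sb2_1, sb2_3, sb2_4, sb3_0, sb3_1, sb3_2, sb3_4,
    sb4_0, sb4_1, sb4_2, sb4_3] at h2
  have h3 : sb 3 0 p1 = 0 := by
    apply mul_left_cancel₀ (pow_ne_zero 2 (X_ne 4))
    linear_combination h2
  obtain ⟨e, he⟩ := sb_zero_eq h3
  have h4 : e * X 4 ^ 2 - p2 * X 3 = (X 3 - X 4) * p3 := by
    apply mul_left_cancel₀ (X_ne 3)
    rw [he] at h1
    linear_combination h1
  have h5 := congrArg (sb 3 (X 4)) h4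
  simp only [map_mul, map_add, map_sub, map_pow, map_neg, map_zero, sb_same, sb0_1, sb0_2, sb0_3, sb0_4,
    sb1_0, sb1_2, sb1_3, sb1_4, sb2_0, sb2_1, sb2_3, sb2_4, sb3_0, sb3_1, sb3_2, sb3_4,
    sb4_0, sb4_1, sb4_2, sb4_3] at h5
  have h6 : sb 3 (X 4) (p2 - e * X 4) = 0 := by
    rw [map_sub, map_mul, sb3_4]
    apply mul_left_cancel₀ (X_ne 4)
    linear_combination (-1 : SS) * h5
  obtain ⟨f, hf⟩ := sb_spec 3 (X 4) (p2 - e * X 4)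
  rw [h6] at hf
  refine ⟨e, f, c1, c2, c3, d1, d2, d3, ?_, ?_⟩
  · linear_combination hc1 + hc2 + hc3 + he
  · linear_combination hd1 + hd2 + hd3 + hf


end Pool.Agent.Lib.MP_799861_al
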