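import Mathlib

set_option autoImplicit false

open CategoryTheory

namespace Pool.Agent.Lib.MP_799861_al

section general

variable {A : Type} [CommRing A]

/-- An injective map with source of projective dimension `< n` and target of projective dimension
`< n + 1` has cokernel of projective dimension `< n + 1`. -/
theorem pd_coker {X Y : Type} [AddCommGroup X] [Module A X] [AddCommGroup Y] [Module A Y]
    (f : X →ₗ[A] Y) (hf : Function.Injective f) (n : ℕ)
    (hX : HasProjectiveDimensionLT (ModuleCat.of A X) n)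
    (hY : HasProjectiveDimensionLT (ModuleCat.of A Y) (n + 1)) :
    HasProjectiveDimensionLT (ModuleCat.of A (Y ⧸ LinearMap.range f)) (n + 1) := by
  have hex : Function.Exact f (LinearMap.range f).mkQ := by
    intro y
    simp
  let S : ShortComplex (ModuleCat A) :=
    ModuleCat.shortComplexOfCompEqZero f (LinearMap.range f).mkQ hex.linearMap_comp_eq_zero
  have hS : S.ShortExact :=
    { exact := ModuleCat.shortComplex_exact _ hex
      mono_f := (ModuleCat.mono_iff_injective _).mpr hf
      epi_g := (ModuleCat.epi_iff_surjective _).mpr (Submodule.mkQ_surjective _) }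
  exact hS.hasProjectiveDimensionLT_X₃ n hX hY

theorem pd_prod {X Y : Type} [AddCommGroup X] [Module A X] [AddCommGroup Y] [Module A Y] (n : ℕ)
    (hX : HasProjectiveDimensionLT (ModuleCat.of A X) n)
    (hY : HasProjectiveDimensionLT (ModuleCat.of A Y) n) :
    HasProjectiveDimensionLT (ModuleCat.of A (X × Y)) n := by
  have hex : Function.Exact (LinearMap.inl A X Y) (LinearMap.snd A X Y) := by
    intro y
    constructor
    · intro h
      refine ⟨y.1, ?_⟩
      ext
      · rfl
      · simpa using h.symm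
    · rintro ⟨x, rfl⟩
      rfl
  let S : ShortComplex (ModuleCat A) :=
    ModuleCat.shortComplexOfCompEqZero (LinearMap.inl A X Y) (LinearMap.snd A X Y)
      hex.linearMap_comp_eq_zero
  have hS : S.ShortExact :=
    { exact := ModuleCat.shortComplex_exact _ hex
      mono_f := (ModuleCat.mono_iff_injective _).mpr LinearMap.inl_injective
      epi_g := (ModuleCat.epi_iff_surjective _).mpr LinearMap.snd_surjective }
  exact hS.hasProjectiveDimensionLT_X₂ n hX hY

theorem pd_free {X : Type} [AddCommGroup X] [Module A X] [Module.Projective A X] :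
    HasProjectiveDimensionLT (ModuleCat.of A X) 1 := by
  rw [← projective_iff_hasProjectiveDimensionLT_one]
  exact (IsProjective.iff_projective X).mp inferInstance

/-- Elements killed by `z` lie in `(x, u) Y`. -/
def Good (x u z : A) (Y : Type) [AddCommGroup Y] [Module A Y] : Prop :=
  ∀ y : Y, z • y = 0 → ∃ a b : Y, y = x • a + u • b

/-- Lemma L, injectivity part. -/
theorem lemL_inj {x u z : A} (hxz : x * z = 0) (huz : u * z = 0)
    {X Y : Type} [AddCommGroup X] [Module A X] [AddCommGroup Y] [Module A Y]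
    (φ : X →ₗ[A] Y) (hY : Good x u z Y)
    (h1 : ∀ (a : X) (b : Y), φ a = z • b → ∃ c : X, a = z • c)
    (h2 : ∀ (a : X) (b c : Y), φ a = x • b + u • c → ∃ b' c' : X, a = x • b' + u • c') :
    Function.Injective φ := by
  rw [injective_iff_map_eq_zero]
  intro a ha
  obtain ⟨c, rfl⟩ := h1 a 0 (by rw [ha, smul_zero])
  obtain ⟨b, d, hbd⟩ := hY (φ c) (by rw [← map_smul, ha])
  obtain ⟨b', c', rfl⟩ := h2 c b d hbd
  rw [smul_add, ← mul_smul, ← mul_smul, mul_comm z x, mul_comm z u, hxz, huz, zero_smul, zero_smul,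
    add_zero]

/-- Lemma L, the cokernel is good again. -/
theorem lemL_good {x u z : A}
    {X Y : Type} [AddCommGroup X] [Module A X] [AddCommGroup Y] [Module A Y]
    (φ : X →ₗ[A] Y) (hY : Good x u z Y)
    (h1 : ∀ (a : X) (b : Y), φ a = z • b → ∃ c : X, a = z • c) :
    Good x u z (Y ⧸ LinearMap.range φ) := by
  intro q hq
  obtain ⟨y, rfl⟩ := Submodule.mkQ_surjective _ q
  rw [Submodule.mkQ_apply, ← Submodule.Quotient.mk_smul, Submodule.Quotient.mk_eq_zero] at hq
  obtain ⟨a, ha⟩ := hq
  obtain ⟨c, rfl⟩ := h1 a y ha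
  have h0 : z • (y - φ c) = 0 := by
    rw [smul_sub, ← map_smul, ha, sub_self]
  obtain ⟨b, d, hbd⟩ := hY _ h0
  refine ⟨Submodule.Quotient.mk b, Submodule.Quotient.mk d, ?_⟩
  rw [← Submodule.Quotient.mk_smul, ← Submodule.Quotient.mk_smul, ← Submodule.Quotient.mk_add,
    ← hbd, Submodule.mkQ_apply]
  symm
  rw [Submodule.Quotient.eq]
  refine ⟨-c, ?_⟩
  rw [map_neg]
  abel

theorem good_prod {x u z : A} {X Y : Type} [AddCommGroup X] [Module A X] [AddCommGroup Y]
    [Module A Y] (hX : Good x u z X) (hY : Good x u z Y) : Good x u z (X × Y) := by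
  rintro ⟨p, q⟩ h
  rw [Prod.smul_mk, Prod.mk_eq_zero] at h
  obtain ⟨a, b, rfl⟩ := hX p h.1
  obtain ⟨c, d, rfl⟩ := hY q h.2
  exact ⟨(a, c), (b, d), rfl⟩

end general

end Pool.Agent.Lib.MP_799861_al
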