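import Mathlib

set_option autoImplicit false

open IsLocalRing

namespace Pool.Agent.Lib.MP_799861_al

/-- A weakly regular sequence inside a prime ideal has length at most the height. -/
theorem length_le_height {R : Type} [CommRing R] [IsNoetherianRing R] (Q : Ideal R) [Q.IsPrime]
    (rs : List R) (reg : RingTheory.Sequence.IsWeaklyRegular R rs) (mem : ∀ r ∈ rs, r ∈ Q) :
    (rs.length : ℕ∞) ≤ Q.height := by
  have h := reg.isRegular_of_isLocalization_of_mem (Localization.AtPrime Q) Q mem
  have h2 := ringKrullDim_add_length_eq_ringKrullDim_of_isRegular _ h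
  have h1 : ringKrullDim (Localization.AtPrime Q) = Q.height :=
    IsLocalization.AtPrime.ringKrullDim_eq_height Q (Localization.AtPrime Q)
  rw [h1, List.length_map] at h2
  have h3 : Nontrivial (Localization.AtPrime Q ⧸
      Ideal.ofList (rs.map (algebraMap R (Localization.AtPrime Q)))) := by
    rw [Ideal.Quotient.nontrivial_iff]
    have := h.2
    intro h4
    apply this
    rw [h4]
    simp
  have h4 := ringKrullDim_nonneg_of_nontrivial (R := (Localization.AtPrime Q ⧸
      Ideal.ofList (rs.map (algebraMap R (Localization.AtPrime Q)))))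
  have h5 : ((rs.length : ℕ∞) : WithBot ℕ∞) ≤ (Q.height : WithBot ℕ∞) := by
    rw [← h2]
    calc ((rs.length : ℕ∞) : WithBot ℕ∞) = 0 + (rs.length : WithBot ℕ∞) := by
          rw [zero_add]; rfl
      _ ≤ _ := by gcongr
  exact WithBot.coe_le_coe.mp h5

/-- Finite length from nilpotency of the maximal ideal modulo the annihilator. -/
theorem isFiniteLength_of_radical {R : Type} [CommRing R] [IsNoetherianRing R] [IsLocalRing R]
    (X : Type) [AddCommGroup X] [Module R X] [Module.Finite R X]
    (h : maximalIdeal R ≤ (Module.annihilator R X).radical) : IsFiniteLength R X := by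
  by_cases htop : Module.annihilator R X = ⊤
  · have : Subsingleton X := Module.annihilator_eq_top_iff.mp htop
    exact IsFiniteLength.of_subsingleton
  set I := Module.annihilator R X with hI
  have hle : I ≤ maximalIdeal R := le_maximalIdeal htop
  have hmin : maximalIdeal R ∈ I.minimalPrimes := by
    refine ⟨⟨inferInstance, hle⟩, ?_⟩
    intro J hJ _
    exact h.trans (hJ.1.radical_le_iff.mpr hJ.2)
  have hart : IsArtinianRing (R ⧸ I) :=
    IsLocalRing.quotient_artinian_of_mem_minimalPrimes_of_isLocalRing I hmin
  rw [isFiniteLength_iff_isNoetherian_isArtinian]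
  refine ⟨inferInstance, ?_⟩
  have htor : Module.IsTorsionBySet R X I := by
    intro x a
    exact Module.mem_annihilator.mp a.2 x
  let : Module (R ⧸ I) X := htor.module
  have : IsScalarTower R (R ⧸ I) X := htor.isScalarTower
  have : Module.Finite (R ⧸ I) X := Module.Finite.of_restrictScalars_finite R (R ⧸ I) X
  have : IsArtinian (R ⧸ I) X := inferInstance
  have hsurj : Function.Surjective (algebraMap R (R ⧸ I)) := Ideal.Quotient.mk_surjective
  exact isArtinian_of_surjective_algebraMap (R := R ⧸ I) hsurj

theorem three_le_dim {A : Type} [CommRing A] (m : Ideal A) [hm : m.IsPrime] (z : A)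
    (p : Fin 4 → PrimeSpectrum A) (hp : StrictMono p) (hle : (p 3).asIdeal ≤ m)
    (hz : z ∈ (p 0).asIdeal) :
    (3 : WithBot ℕ∞) ≤ ringKrullDim (Localization.AtPrime m ⧸
      Ideal.span {algebraMap A (Localization.AtPrime m) z}) := by
  rw [ringKrullDim_quotient]
  have hlast : ∀ i, p i ≤ p 3 := fun i => hp.monotone (Fin.le_last i)
  let e := IsLocalization.AtPrime.primeSpectrumOrderIso (Localization.AtPrime m) m
  have hmem : ∀ i, p i ∈ Set.Iic (⟨m, hm⟩ : PrimeSpectrum A) := by
    intro i
    exact le_trans (hlast i) hle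
  have hunder : ∀ i, ((e.symm ⟨p i, hmem i⟩).asIdeal.under A) = (p i).asIdeal := by
    intro i
    have h1 := e.apply_symm_apply ⟨p i, hmem i⟩
    have h2 := congrArg (fun t => t.1.asIdeal) h1
    exact h2
  have hzz : ∀ i, algebraMap A (Localization.AtPrime m) z ∈ (e.symm ⟨p i, hmem i⟩).asIdeal := by
    intro i
    have : z ∈ (e.symm ⟨p i, hmem i⟩).asIdeal.under A := by
      rw [hunder i]
      exact hp.monotone (Fin.zero_le i) hz
    exact this
  let s : LTSeries (PrimeSpectrum.zeroLocus (R := Localization.AtPrime m)
      ((Ideal.span {algebraMap A (Localization.AtPrime m) z} : Ideal (Localization.AtPrime m)) :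
        Set (Localization.AtPrime m))) :=
    LTSeries.mk 3 (fun i => ⟨e.symm ⟨p i, hmem i⟩, by
      rw [PrimeSpectrum.mem_zeroLocus]
      intro t ht
      exact (Ideal.span_singleton_le_iff_mem _).mpr (hzz i) ht⟩) (by
      intro i j hij
      show e.symm ⟨p i, hmem i⟩ < e.symm ⟨p j, hmem j⟩
      rw [e.symm.lt_iff_lt]
      exact hp hij)
  have := Order.LTSeries.length_le_krullDim s
  exact this

theorem height_le_two {A : Type} [CommRing A] [IsNoetherianRing A] (q : Ideal A) [q.IsPrime]
    (a b : A) (ha : a ∈ q) (hb : b ∈ q)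
    (hmin : ∀ P : Ideal A, P.IsPrime → a ∈ P → b ∈ P → P ≤ q → q ≤ P) : q.height ≤ 2 := by
  classical
  have h : q ∈ (Ideal.span (({a, b} : Finset A) : Set A)).minimalPrimes := by
    refine ⟨⟨inferInstance, ?_⟩, ?_⟩
    · rw [Ideal.span_le]
      intro t ht
      simp only [Finset.coe_insert, Finset.coe_singleton, Set.mem_insert_iff,
        Set.mem_singleton_iff] at ht
      rcases ht with rfl | rfl
      · exact ha
      · exact hb
    · intro P hP hPq
      refine hmin P hP.1 ?_ ?_ hPq
      · exact hP.2 (Ideal.subset_span (by simp))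
      · exact hP.2 (Ideal.subset_span (by simp))
  refine (Ideal.height_le_card_of_mem_minimalPrimes_span_finset h).trans ?_
  exact_mod_cast Finset.card_le_two

/-- The annihilator of a localised module. -/
theorem ann_le {A : Type} [CommRing A] (m q : Ideal A) [m.IsPrime] [hq : q.IsPrime] (hqm : q ≤ m)
    (N : Type) [AddCommGroup N] [Module A N] (n0 : N) (hn0 : ∀ a : A, a • n0 = 0 → a ∈ q)
    (r : Localization.AtPrime m)
    (hr : r ∈ Module.annihilator (Localization.AtPrime m) (LocalizedModule m.primeCompl N)) :
    r ∈ q.map (algebraMap A (Localization.AtPrime m)) := by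
  obtain ⟨⟨a, s⟩, hs⟩ := IsLocalization.surj m.primeCompl r
  simp only at hs
  have h1 : (algebraMap A (Localization.AtPrime m) a) •
      (LocalizedModule.mkLinearMap m.primeCompl N n0) = 0 := by
    rw [← hs, mul_comm, mul_smul, Module.mem_annihilator.mp hr, smul_zero]
  rw [algebraMap_smul, ← map_smul] at h1
  obtain ⟨t, ht⟩ := (IsLocalizedModule.eq_zero_iff m.primeCompl
    (LocalizedModule.mkLinearMap m.primeCompl N)).mp h1
  have h2 : (t : A) * a ∈ q := hn0 _ (by rw [mul_smul]; exact ht)
  have h3 : a ∈ q := (hq.mem_or_mem h2).resolve_left (fun h => t.2 (hqm h))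
  have h4 : r * algebraMap A (Localization.AtPrime m) s ∈
      q.map (algebraMap A (Localization.AtPrime m)) := by
    rw [hs]
    exact Ideal.mem_map_of_mem _ h3
  have hu : IsUnit (algebraMap A (Localization.AtPrime m) s) := IsLocalization.map_units _ s
  exact (Ideal.mul_unit_mem_iff_mem _ hu).mp h4

/-- elements acting on `N` through `z` kill the tensor product. -/
theorem mem_ann_tensor {A : Type} [CommRing A] (m : Ideal A) [m.IsPrime] (z w : A)
    (N : Type) [AddCommGroup N] [Module A N] (h : ∀ n : N, ∃ n' : N, w • n = z • n') :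
    algebraMap A (Localization.AtPrime m) w ∈ Module.annihilator (Localization.AtPrime m)
      (TensorProduct (Localization.AtPrime m)
        (Localization.AtPrime m ⧸ Ideal.span {algebraMap A (Localization.AtPrime m) z})
        (LocalizedModule m.primeCompl N)) := by
  rw [Module.mem_annihilator]
  intro t
  induction t using TensorProduct.induction_on with
  | zero => rw [smul_zero]
  | add a b ha hb => rw [smul_add, ha, hb, add_zero]
  | tmul r n =>
    obtain ⟨⟨n1, s⟩, rfl⟩ := IsLocalizedModule.mk'_surjective m.primeCompl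
      (LocalizedModule.mkLinearMap m.primeCompl N) n
    obtain ⟨n', hn'⟩ := h n1
    have h1 : algebraMap A (Localization.AtPrime m) w • (Function.uncurry
        (IsLocalizedModule.mk' (LocalizedModule.mkLinearMap m.primeCompl N)) (n1, s)) =
        algebraMap A (Localization.AtPrime m) z • (IsLocalizedModule.mk'
          (LocalizedModule.mkLinearMap m.primeCompl N) n' s) := by
      rw [algebraMap_smul, algebraMap_smul, Function.uncurry_apply_pair,
        ← IsLocalizedModule.mk'_smul, ← IsLocalizedModule.mk'_smul, hn']
    rw [← TensorProduct.tmul_smul, h1, ← TensorProduct.smul_tmul]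
    have h2 : algebraMap A (Localization.AtPrime m) z • r = 0 := by
      obtain ⟨r, rfl⟩ := Ideal.Quotient.mk_surjective r
      rw [← Ideal.Quotient.mk_eq_mk, ← Submodule.Quotient.mk_smul, Submodule.Quotient.mk_eq_zero,
        smul_eq_mul]
      exact Ideal.mul_mem_right _ _ (Ideal.subset_span rfl)
    rw [h2, TensorProduct.zero_tmul]

end Pool.Agent.Lib.MP_799861_al
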